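import Pool.Agent.H985R3.TA.Defs3

/-!
# Inward separation of the two arms and the annulus bound: definitions

`n` = inner radius, `m` = outer radius. Mirror image of helper985's outward separation
(`Pool/Agent/H985R3/TA`): the tubes are now inside the box of radius `n`.
-/

set_option autoImplicit false

namespace H934I

open H974 H985T Finset

/-- the annulus -/
noncomputable def annE (n m : ℕ) : Finset Edg := boxE m \ boxE n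

/-- tube of length `10 ρ` inside the box `n`, at its right side, height `c` -/
noncomputable def tubeI (n ρ : ℕ) (c : ℤ) : Finset Edg :=
  RE ((n:ℤ) - 10 * ρ) n (c - ρ) (c + ρ)

/-- the block at the inner end of the tube -/
noncomputable def endI (n ρ : ℕ) (c : ℤ) : Finset Edg :=
  RE ((n:ℤ) - 14 * ρ) ((n:ℤ) - 10 * ρ) (c - ρ) (c + ρ) \ tubeI n ρ c

/-- frame around the box `m` -/
noncomputable def outE (m : ℕ) : Finset Edg :=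
  RE (-(m:ℤ) - 1) ((m:ℤ) + 1) (-(m:ℤ) - 1) ((m:ℤ) + 1) \ boxE m

/-- the region of the extension step -/
noncomputable def RI (n m ρ : ℕ) (c : ℤ) : Finset Edg :=
  annE n m ∪ tubeI n ρ c ∪ (endI n ρ c ∪ outE m)

/-- the faces outside the box `n` which have an edge of the box -/
def ringF (n : ℕ) : Set Vtx :=
  {f | ((f.1 = n ∨ f.1 = -(n:ℤ) - 1) ∧ -(n:ℤ) ≤ f.2 ∧ f.2 < n) ∨
    ((f.2 = n ∨ f.2 = -(n:ℤ) - 1) ∧ -(n:ℤ) ≤ f.1 ∧ f.1 < n)}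

/-- open arm in the annulus -/
def AV (n m : ℕ) (F : Set Edg) : Prop :=
  ∃ u v : Vtx, onB n u ∧ onB m v ∧ Reach (F ∩ ↑(annE n m)) u v

/-- dual arm in the annulus -/
def AF (n m : ℕ) (F : Set Edg) : Prop :=
  ∃ w0 ∈ ringF n, ∃ w ∈ ringF m, DReach (↑(annE n m) \ F) w0 w

/-- both arms -/
def AA (n m : ℕ) (F : Set Edg) : Prop := AV n m F ∧ AF n m F

/-- the two-arm probability of the annulus -/
noncomputable def aa (n m : ℕ) : ℝ := H12S.PQ (1 / 2) (annE n m) (fun F => AA n m ↑F)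

/-- an open arm starts at the right side of the box `n` near `c` -/
def LvI (n m ρ : ℕ) (c : ℤ) (F : Set Edg) : Prop :=
  ∃ u2 : ℤ, 2 * |u2 - c| ≤ ρ ∧ ∃ v, onB m v ∧ Reach (F ∩ ↑(annE n m)) ((n:ℤ), u2) v

/-- a dual arm starts at the right side of the box `n` near `c` -/
def LfI (n m ρ : ℕ) (c : ℤ) (F : Set Edg) : Prop :=
  ∃ w2 : ℤ, 2 * |w2 - c| ≤ ρ ∧ ∃ w ∈ ringF m, DReach (↑(annE n m) \ F) ((n:ℤ), w2) w

/-- an open arm starts at the inner end of the tube -/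
def TvI (n m ρ : ℕ) (c : ℤ) (F : Set Edg) : Prop :=
  ∃ z2 : ℤ, |z2 - c| ≤ ρ ∧ ∃ v, onB m v ∧
    Reach (F ∩ ↑(annE n m ∪ tubeI n ρ c)) ((n:ℤ) - 10 * ρ, z2) v

/-- a dual arm starts at the inner end of the tube -/
def TfI (n m ρ : ℕ) (c : ℤ) (F : Set Edg) : Prop :=
  ∃ w2 : ℤ, (c - ρ ≤ w2 ∧ w2 < c + ρ) ∧ ∃ w ∈ ringF m,
    DReach (↑(annE n m ∪ tubeI n ρ c) \ F) ((n:ℤ) - 10 * ρ - 1, w2) w

/-- the same on the side `s` -/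
def LfSI (n m ρ : ℕ) (s : Fin 4) (c : ℤ) (F : Set Edg) : Prop :=
  LfI n m ρ c ((sy s).φ '' F)

def TfSI (n m ρ : ℕ) (s : Fin 4) (c : ℤ) (F : Set Edg) : Prop :=
  TfI n m ρ c ((sy s).φ '' F)

/-- the half ball outside of the box `n`, at its right side -/
noncomputable def hbI (n : ℕ) (y0 : ℤ) (R : ℕ) : Finset Edg :=
  RE (n:ℤ) ((n:ℤ) + R) (y0 - R) (y0 + R) \ boxE n

/-- three arms (dual, open, dual) in the half ball -/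
def H3dI (n : ℕ) (y0 : ℤ) (r R : ℕ) (F : Set Edg) : Prop :=
  ∃ ya yb : ℤ, |ya - y0| ≤ r ∧ |yb - y0| ≤ r ∧
    (∃ z : Vtx, ((n:ℤ) + R ≤ z.1 ∨ z.2 < y0 - R ∨ y0 + R ≤ z.2) ∧
      DReach (↑(hbI n y0 R) \ F) ((n:ℤ), ya) z) ∧
    (∃ z : Vtx, ((n:ℤ) + R ≤ z.1 ∨ z.2 < y0 - R ∨ y0 + R ≤ z.2) ∧
      DReach (↑(hbI n y0 R) \ F) ((n:ℤ), yb) z) ∧
    ¬ DReach (↑(hbI n y0 R) \ F) ((n:ℤ), ya) ((n:ℤ), yb)

/-- three arms (open, dual, open) in the half ball -/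
def H3pI (n : ℕ) (y0 : ℤ) (r R : ℕ) (F : Set Edg) : Prop :=
  ∃ ya yb : ℤ, |ya - y0| ≤ r ∧ |yb - y0| ≤ r ∧
    (∃ z : Vtx, (z.1 = (n:ℤ) + R ∨ z.2 = y0 - R ∨ z.2 = y0 + R) ∧
      Reach (F ∩ ↑(hbI n y0 R)) ((n:ℤ), ya) z) ∧
    (∃ z : Vtx, (z.1 = (n:ℤ) + R ∨ z.2 = y0 - R ∨ z.2 = y0 + R) ∧
      Reach (F ∩ ↑(hbI n y0 R)) ((n:ℤ), yb) z) ∧
    ¬ Reach (F ∩ ↑(hbI n y0 R)) ((n:ℤ), ya) ((n:ℤ), yb)

/-- good mouth of the tube for the extension of an open arm -/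
def GdI (n ρ r l : ℕ) (c : ℤ) (F : Set Edg) : Prop :=
  (∀ k : ℤ, |(l:ℤ) * k - c| ≤ ρ → ¬ H3dI n (l * k) (2 * l) r F) ∧
    ¬ H12S.DCrs n (c + ρ) (2 * r) (ρ / 4) (↑(annE n (2 * n)) \ F) ∧
    ¬ H12S.DCrs n (c - ρ) (2 * r) (ρ / 4) (↑(annE n (2 * n)) \ F)

/-- good mouth of the tube for the extension of a dual arm -/
def GpI (n ρ r l : ℕ) (c : ℤ) (F : Set Edg) : Prop :=
  (∀ k : ℤ, |(l:ℤ) * k - c| ≤ ρ → ¬ H3pI n (l * k) (2 * l) r F) ∧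
    ¬ H12S.Crs n (c + ρ) (2 * r) (ρ / 4) (F ∩ ↑(annE n (2 * n))) ∧
    ¬ H12S.Crs n (c - ρ) (2 * r) (ρ / 4) (F ∩ ↑(annE n (2 * n)))

def GpSI (n ρ r l : ℕ) (s : Fin 4) (c : ℤ) (F : Set Edg) : Prop :=
  GpI n ρ r l c ((sy s).φ '' F)

/-- no arms at the corners, no three arms at scale `ρ`, `R` at the boundary of the box `n` -/
structure SelGoodI (n ρ r0 R : ℕ) (F : Set Edg) : Prop where
  h1 : ∀ s : Fin 4, ¬ H12S.Crs n n r0 (n / 4) ((sy s).φ '' F ∩ ↑(annE n (2 * n))) ∧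
    ¬ H12S.Crs n (-(n:ℤ)) r0 (n / 4) ((sy s).φ '' F ∩ ↑(annE n (2 * n)))
  h2 : ∀ s : Fin 4, ¬ H12S.DCrs n n r0 (n / 4) (↑(annE n (2 * n)) \ (sy s).φ '' F) ∧
    ¬ H12S.DCrs n (-(n:ℤ)) r0 (n / 4) (↑(annE n (2 * n)) \ (sy s).φ '' F)
  h3 : ∀ s : Fin 4, ∀ k : ℤ, |(ρ:ℤ) * k| + r0 ≤ n + ρ →
    ¬ H3dI n (ρ * k) (8 * ρ + 1) R ((sy s).φ '' F)

end H934I
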