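import Pool.Agent.H934R3.TI.J14d

/-!
# J14: gluing with the inner separated arms (task J14, helper197)
-/

set_option autoImplicit false

namespace H934I

open H974 H985T Finset

section Geometry

variable {n m ρ b : ℕ} {c : ℤ} {s : Fin 4} {c' x0 : ℤ}

theorem J14_DD_sub (g : JG n m ρ b c s c' x0) : DD n ρ b c s c' ⊆ boxE m := by
  intro e he
  rw [mem_DD] at he
  exact J14_box_sub (by have := g.hm; omega) he.1

theorem J14_ann_sub : annE n m ⊆ boxE m := Finset.sdiff_subset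

theorem J14_b_le_n (g : JG n m ρ b c s c' x0) : b ≤ n := by have := g.hb; omega

theorem J14_dis_ann : Disjoint (annE n m) (DD n ρ b c s c') := by
  rw [Finset.disjoint_left]
  intro e h1 h2
  unfold annE at h1
  rw [mem_DD] at h2
  exact (Finset.mem_sdiff.1 h1).2 h2.1

theorem J14_dis_box : Disjoint (boxE b) (DD n ρ b c s c') := by
  rw [Finset.disjoint_left]
  intro e h1 h2
  rw [mem_DD] at h2
  exact h2.2.1 h1

theorem J14_dis_ab (g : JG n m ρ b c s c' x0) : Disjoint (annE n m) (boxE b) := by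
  rw [Finset.disjoint_left]
  intro e h1 h2
  unfold annE at h1
  exact (Finset.mem_sdiff.1 h1).2 (J14_box_sub (J14_b_le_n g) h2)

theorem J14_dis_ann_of {X : Finset Edg} (hX : X ⊆ boxE n) : Disjoint X (annE n m) := by
  rw [Finset.disjoint_left]
  intro e h1 h2
  unfold annE at h2
  exact (Finset.mem_sdiff.1 h2).2 (hX h1)

/-- the tube for the open arm -/
theorem J14_tubeI (g : JG n m ρ b c s c' x0) {e : Edg} (he : e ∈ tubeI n ρ c) :
    e ∈ boxE n ∧ (b:ℤ) < e.1 ∧ c - ρ ≤ e.2.1 ∧ e.2.1 ≤ c + ρ := by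
  have h1 := J14_tube_sub_box g.hc he
  have h2 := g.h100
  have h3 := g.hb
  have h4 := g.hρ
  refine ⟨h1, ?_⟩
  unfold tubeI at he
  obtain ⟨x, y, _ | _⟩ := e
  · rw [mem_RE_false] at he
    simp only
    omega
  · rw [mem_RE_true] at he
    simp only
    omega

theorem J14_not_b {e : Edg} (h : (b:ℤ) < e.1 ∨ e.1 < -(b:ℤ) ∨ (b:ℤ) < e.2.1 ∨ e.2.1 < -(b:ℤ)) :
    e ∉ boxE b := by
  obtain ⟨x, y, _ | _⟩ := e
  · rw [J14_box_false]
    simp only at h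
    omega
  · rw [J14_box_true]
    simp only at h
    omega

theorem J14_Ts_D (g : JG n m ρ b c s c' x0) {e : Edg}
    (he : e ∈ (sy s).toLSym.mp (tubeI n ρ c')) : e ∈ DD n ρ b c s c' := by
  have h1 := J14_Ts g.hc' he
  have h2 := g.h100
  have h3 := g.hb
  have h4 := g.hρ
  rw [mem_DD]
  refine ⟨h1.1, J14_not_b ?_, Or.inl he⟩
  rcases h1.2 with h | h | h | h
  · omega
  · omega
  · omega
  · omega

theorem J14_Xd2 (g : JG n m ρ b c s c' x0) {e : Edg}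
    (he : e ∈ RE (-(3 * b : ℕ)) (b : ℕ) (-(b : ℕ)) (b : ℕ)) : e ∈ boxE n ∧
      (e ∈ boxE b ∨ e ∈ DD n ρ b c s c') := by
  have h3 := g.hb
  have h1 : e ∈ boxE n := by
    obtain ⟨x, y, _ | _⟩ := e
    · rw [mem_RE_false] at he
      rw [J14_box_false]
      omega
    · rw [mem_RE_true] at he
      rw [J14_box_true]
      omega
  refine ⟨h1, ?_⟩
  by_cases h : e ∈ boxE b
  · exact Or.inl h
  · right
    rw [mem_DD]
    exact ⟨h1, h, Or.inr (Or.inl he)⟩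

theorem J14_Xo2 (g : JG n m ρ b c s c' x0) {e : Edg}
    (he : e ∈ RE (-(b : ℤ)) (x0 + 2 * ρ) (-(b : ℤ)) b) : e ∈ boxE n ∧
      e ∉ DD n ρ b c s c' := by
  have h1 := g.h100
  have h2 := g.hρ
  have h3 := g.hb
  have h4 := g.hx0
  have h5 := g.hb'
  obtain ⟨x, y, _ | _⟩ := e
  · rw [mem_RE_false] at he
    refine ⟨by rw [J14_box_false]; omega, J14_not_DD g ?_⟩
    by_cases hx : x ≤ b
    · left
      rw [J14_box_false]
      omega
    · right; right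
      simp only
      omega
  · rw [mem_RE_true] at he
    refine ⟨by rw [J14_box_true]; omega, J14_not_DD g ?_⟩
    by_cases hx : x < b
    · left
      rw [J14_box_true]
      omega
    · right; right
      simp only [and_true]
      omega

/-- regions of the open crossings -/
theorem J14_open_reg (g : JG n m ρ b c s c' x0) {e : Edg} (h1 : e ∈ boxE n) (h2 : (b:ℤ) < e.1)
    (h3 : (c - ρ ≤ e.2.1 ∧ e.2.1 ≤ c + ρ) ∨
      (e.1 ≤ x0 + 2 * ρ ∧ -(n:ℤ) + 11 * ρ ≤ e.2.1 ∧ e.2.1 ≤ (n:ℤ) - 11 * ρ)) :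
    e ∈ boxE m \ (annE n m ∪ boxE b) ∧ e ∉ DD n ρ b c s c' := by
  refine ⟨?_, J14_not_DD g (Or.inr (Or.inr ⟨Or.inl h2, h3⟩))⟩
  rw [Finset.mem_sdiff, Finset.mem_union]
  refine ⟨J14_box_sub (by have := g.hm; omega) h1, ?_⟩
  rintro (h | h)
  · unfold annE at h
    exact (Finset.mem_sdiff.1 h).2 h1
  · exact J14_not_b (Or.inl h2) h

/-- regions of the dual crossings -/
theorem J14_dual_reg (g : JG n m ρ b c s c' x0) {e : Edg} (h1 : e ∈ boxE n) (h2 : ringP n ρ c e) :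
    e ∈ boxE m \ (annE n m ∪ boxE b) ∧ e ∈ DD n ρ b c s c' := by
  have h3 := g.h100
  have h4 := g.hρ
  have h5 := g.hb
  have h6 : e ∉ boxE b := by
    apply J14_not_b
    unfold ringP at h2
    omega
  refine ⟨?_, ?_⟩
  · rw [Finset.mem_sdiff, Finset.mem_union]
    refine ⟨J14_box_sub (by have := g.hm; omega) h1, ?_⟩
    rintro (h | h)
    · unfold annE at h
      exact (Finset.mem_sdiff.1 h).2 h1
    · exact h6 h
  · rw [mem_DD]
    exact ⟨h1, h6, Or.inr (Or.inr h2)⟩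

end Geometry

/-! ### the crossing events -/

theorem J14_dmp_mono {F G : Finset Edg} (h : F ⊆ G) : dmp F ⊆ dmp G := by
  intro e he
  rw [mem_dmp] at he ⊢
  exact h he

theorem J14_dmp_loc {Ω Z F : Finset Edg} (hF : F ⊆ Ω) :
    dmp F ∩ dmp (Ω \ Z) = dmp (F \ Z) := by
  ext e
  rw [Finset.mem_inter, mem_dmp, mem_dmp, mem_dmp, Finset.mem_sdiff, Finset.mem_sdiff]
  exact ⟨fun h => ⟨h.1, h.2.2⟩, fun h => ⟨h.1, hF h.1, h.2⟩⟩

theorem J14_dLR {Ω Z : Finset Edg} {c1 : ℝ} {a b c d : ℤ} (hs : LRE a b c d ⊆ dmp (Ω \ Z))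
    (h : c1 ≤ hh (1 / 2) (b - a) (d - c)) :
    GluGood Ω Z c1 (fun w => LRc a b c d (dmp w)) where
  inc := fun F G hFG _ hF => hF.mono (J14_dmp_mono hFG)
  pr := by
    rw [← pr_dmp, pr_LRc _ (hs.trans (J14_dmp_mono Finset.sdiff_subset))]
    exact h
  loc := fun F hF => by rw [LRc_local hs, J14_dmp_loc hF]

theorem J14_dTB {Ω Z : Finset Edg} {c1 : ℝ} {a b c d : ℤ} (hs : TBE a b c d ⊆ dmp (Ω \ Z))
    (h : c1 ≤ hh (1 / 2) (d - c) (b - a)) :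
    GluGood Ω Z c1 (fun w => TBc a b c d (dmp w)) where
  inc := fun F G hFG _ hF => hF.mono (J14_dmp_mono hFG)
  pr := by
    rw [← pr_dmp, pr_TBc _ (hs.trans (J14_dmp_mono Finset.sdiff_subset))]
    exact h
  loc := fun F hF => by rw [TBc_local hs, J14_dmp_loc hF]

/-- the crossing events -/
def J14_L (n ρ : ℕ) (c x0 : ℤ) : List (Finset Edg → Prop) :=
  [TBc ((n:ℤ) - 10 * ρ) ((n:ℤ) - 8 * ρ - 1) (c - ρ) (c + ρ),
   LRc x0 ((n:ℤ) - 8 * ρ - 1) (c - ρ) (c + ρ),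
   TBc x0 (x0 + 2 * ρ) (-(n:ℤ) + 11 * ρ) ((n:ℤ) - 11 * ρ),
   fun w => LRc (-(n:ℤ) + 4 * ρ) ((n:ℤ) - 4 * ρ) (-(n:ℤ) + 4 * ρ) (-(n:ℤ) + 8 * ρ) (dmp w),
   fun w => TBc (-(n:ℤ) + 4 * ρ) (-(n:ℤ) + 8 * ρ) (-(n:ℤ) + 4 * ρ) ((n:ℤ) - 4 * ρ) (dmp w),
   fun w => LRc (-(n:ℤ) + 4 * ρ) ((n:ℤ) - 4 * ρ) ((n:ℤ) - 8 * ρ) ((n:ℤ) - 4 * ρ) (dmp w),
   fun w => TBc ((n:ℤ) - 8 * ρ) ((n:ℤ) - 4 * ρ) (c + 3 * ρ) ((n:ℤ) - 4 * ρ) (dmp w),
   fun w => TBc ((n:ℤ) - 8 * ρ) ((n:ℤ) - 4 * ρ) (-(n:ℤ) + 4 * ρ) (c - 3 * ρ) (dmp w)]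

/-- region of a crossing -/
def InReg (P : Edg → Prop) (R : Finset Edg) : Prop := ∀ e ∈ R, P e

section Regions

variable {n m ρ b : ℕ} {c : ℤ} {s : Fin 4} {c' x0 : ℤ}

theorem J14_r1 (g : JG n m ρ b c s c' x0) :
    InReg (fun e => e ∈ boxE m \ (annE n m ∪ boxE b) ∧ e ∉ DD n ρ b c s c')
      (TBE ((n:ℤ) - 10 * ρ) ((n:ℤ) - 8 * ρ - 1) (c - ρ) (c + ρ)) := by
  have h1 := g.h100
  have h2 := g.hρ
  have h3 := g.hb
  have h4 := abs_le.1 (show |c| ≤ (n : ℤ) - 20 * ρ by have := g.hc; omega)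
  rintro ⟨x, y, _ | _⟩ h
  · rw [mem_TBE_false] at h
    refine J14_open_reg g (by rw [J14_box_false]; omega) (by simp only; omega)
      (by simp only; omega)
  · rw [mem_TBE_true] at h
    refine J14_open_reg g (by rw [J14_box_true]; omega) (by simp only; omega)
      (by simp only; omega)

theorem J14_r2 (g : JG n m ρ b c s c' x0) :
    InReg (fun e => e ∈ boxE m \ (annE n m ∪ boxE b) ∧ e ∉ DD n ρ b c s c')
      (LRE x0 ((n:ℤ) - 8 * ρ - 1) (c - ρ) (c + ρ)) := by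
  have h1 := g.h100
  have h2 := g.hρ
  have h3 := g.hb
  have h5 := g.hx0'
  have h4 := abs_le.1 (show |c| ≤ (n : ℤ) - 20 * ρ by have := g.hc; omega)
  rintro ⟨x, y, _ | _⟩ h
  · rw [mem_LRE_false] at h
    refine J14_open_reg g (by rw [J14_box_false]; omega) (by simp only; omega)
      (by simp only; omega)
  · rw [mem_LRE_true] at h
    refine J14_open_reg g (by rw [J14_box_true]; omega) (by simp only; omega)
      (by simp only; omega)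

theorem J14_r3 (g : JG n m ρ b c s c' x0) :
    InReg (fun e => e ∈ boxE m \ (annE n m ∪ boxE b) ∧ e ∉ DD n ρ b c s c')
      (TBE x0 (x0 + 2 * ρ) (-(n:ℤ) + 11 * ρ) ((n:ℤ) - 11 * ρ)) := by
  have h1 := g.h100
  have h2 := g.hρ
  have h3 := g.hb
  have h5 := g.hx0'
  have h6 := g.hx0
  rintro ⟨x, y, _ | _⟩ h
  · rw [mem_TBE_false] at h
    refine J14_open_reg g (by rw [J14_box_false]; omega) (by simp only; omega)
      (by simp only; omega)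
  · rw [mem_TBE_true] at h
    refine J14_open_reg g (by rw [J14_box_true]; omega) (by simp only; omega)
      (by simp only; omega)

/-- dual regions -/
theorem J14_dreg (g : JG n m ρ b c s c' x0) {R : Finset Edg}
    (h : ∀ e ∈ R, dl.symm e ∈ boxE n ∧ ringP n ρ c (dl.symm e)) :
    R ⊆ dmp (boxE m \ (annE n m ∪ boxE b)) ∧ R ⊆ dmp (DD n ρ b c s c') := by
  constructor
  · intro e he
    rw [mem_dmp]
    exact (J14_dual_reg g (h e he).1 (h e he).2).1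
  · intro e he
    rw [mem_dmp]
    exact (J14_dual_reg g (h e he).1 (h e he).2).2

theorem J14_d4 (g : JG n m ρ b c s c' x0) : ∀ e ∈ LRE (-(n:ℤ) + 4 * ρ) ((n:ℤ) - 4 * ρ)
    (-(n:ℤ) + 4 * ρ) (-(n:ℤ) + 8 * ρ), dl.symm e ∈ boxE n ∧ ringP n ρ c (dl.symm e) := by
  have h1 := g.h100
  have h2 := g.hρ
  rintro ⟨x, y, _ | _⟩ h
  · rw [mem_LRE_false] at h
    rw [dls_f, J14_box_true]
    unfold ringP
    simp only
    omega
  · rw [mem_LRE_true] at h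
    rw [dls_t, J14_box_false]
    unfold ringP
    simp only
    omega

theorem J14_d5 (g : JG n m ρ b c s c' x0) : ∀ e ∈ TBE (-(n:ℤ) + 4 * ρ) (-(n:ℤ) + 8 * ρ)
    (-(n:ℤ) + 4 * ρ) ((n:ℤ) - 4 * ρ), dl.symm e ∈ boxE n ∧ ringP n ρ c (dl.symm e) := by
  have h1 := g.h100
  have h2 := g.hρ
  rintro ⟨x, y, _ | _⟩ h
  · rw [mem_TBE_false] at h
    rw [dls_f, J14_box_true]
    unfold ringP
    simp only
    omega
  · rw [mem_TBE_true] at h
    rw [dls_t, J14_box_false]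
    unfold ringP
    simp only
    omega

theorem J14_d6 (g : JG n m ρ b c s c' x0) : ∀ e ∈ LRE (-(n:ℤ) + 4 * ρ) ((n:ℤ) - 4 * ρ)
    ((n:ℤ) - 8 * ρ) ((n:ℤ) - 4 * ρ), dl.symm e ∈ boxE n ∧ ringP n ρ c (dl.symm e) := by
  have h1 := g.h100
  have h2 := g.hρ
  rintro ⟨x, y, _ | _⟩ h
  · rw [mem_LRE_false] at h
    rw [dls_f, J14_box_true]
    unfold ringP
    simp only
    omega
  · rw [mem_LRE_true] at h
    rw [dls_t, J14_box_false]
    unfold ringP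
    simp only
    omega

theorem J14_d7 (g : JG n m ρ b c s c' x0) : ∀ e ∈ TBE ((n:ℤ) - 8 * ρ) ((n:ℤ) - 4 * ρ)
    (c + 3 * ρ) ((n:ℤ) - 4 * ρ), dl.symm e ∈ boxE n ∧ ringP n ρ c (dl.symm e) := by
  have h1 := g.h100
  have h2 := g.hρ
  have h4 := abs_le.1 (show |c| ≤ (n : ℤ) - 20 * ρ by have := g.hc; omega)
  rintro ⟨x, y, _ | _⟩ h
  · rw [mem_TBE_false] at h
    rw [dls_f, J14_box_true]
    unfold ringP
    simp only
    omega
  · rw [mem_TBE_true] at h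
    rw [dls_t, J14_box_false]
    unfold ringP
    simp only
    omega

theorem J14_d8 (g : JG n m ρ b c s c' x0) : ∀ e ∈ TBE ((n:ℤ) - 8 * ρ) ((n:ℤ) - 4 * ρ)
    (-(n:ℤ) + 4 * ρ) (c - 3 * ρ), dl.symm e ∈ boxE n ∧ ringP n ρ c (dl.symm e) := by
  have h1 := g.h100
  have h2 := g.hρ
  have h4 := abs_le.1 (show |c| ≤ (n : ℤ) - 20 * ρ by have := g.hc; omega)
  rintro ⟨x, y, _ | _⟩ h
  · rw [mem_TBE_false] at h
    rw [dls_f, J14_box_true]
    unfold ringP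
    simp only
    omega
  · rw [mem_TBE_true] at h
    rw [dls_t, J14_box_false]
    unfold ringP
    simp only
    omega

theorem J14_L_good (g : JG n m ρ b c s c' x0) {B : ℕ} (hB : n ≤ B * ρ) {c1 : ℝ}
    (hc1 : ∀ w h : ℤ, 0 < w → 1 ≤ h → w ≤ ((2 * B + 40 : ℕ) : ℤ) * h → c1 ≤ hh (1 / 2) w h) :
    ∀ A ∈ J14_L n ρ c x0, GluGood (boxE m) (annE n m ∪ boxE b) c1 A := by
  have h1 := g.h100
  have h2 := g.hρ
  have h3 := g.hx0
  have h5 := g.hx0'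
  have h4 := abs_le.1 (show |c| ≤ (n : ℤ) - 20 * ρ by have := g.hc; omega)
  have hB' : (n : ℤ) ≤ B * ρ := by exact_mod_cast hB
  have hk2 : ∀ w : ℤ, w ≤ 2 * n → w ≤ ((2 * B + 40 : ℕ) : ℤ) * (2 * ρ) := by
    intro w hw
    have e : ((2 * B + 40 : ℕ) : ℤ) * (2 * ρ) = 4 * (B * ρ) + 80 * ρ := by push_cast; ring
    rw [e]
    omega
  have hk4 : ∀ w : ℤ, w ≤ 2 * n → w ≤ ((2 * B + 40 : ℕ) : ℤ) * (4 * ρ) := by
    intro w hw
    have e : ((2 * B + 40 : ℕ) : ℤ) * (4 * ρ) = 8 * (B * ρ) + 160 * ρ := by push_cast; ring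
    rw [e]
    omega
  unfold J14_L
  simp only [List.forall_mem_cons, List.not_mem_nil, false_implies, implies_true, and_true]
  refine ⟨?_, ?_, ?_, ?_, ?_, ?_, ?_, ?_⟩
  · refine gluGood_TB (fun e he => (J14_r1 g e he).1) ?_
    rw [show c + (ρ : ℤ) - (c - ρ) = 2 * ρ by ring,
      show (n:ℤ) - 8 * ρ - 1 - ((n:ℤ) - 10 * ρ) = 2 * ρ - 1 by ring]
    refine hc1 _ _ (by omega) (by omega) ?_
    have e : ((2 * B + 40 : ℕ) : ℤ) * (2 * ρ - 1) = 2 * (B * (2 * ρ - 1)) + 40 * (2 * ρ - 1) := by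
      push_cast; ring
    rw [e]
    have e2 : (0:ℤ) ≤ B * (2 * ρ - 1) := mul_nonneg (by positivity) (by omega)
    omega
  · refine gluGood_LR (fun e he => (J14_r2 g e he).1) ?_
    rw [show c + (ρ : ℤ) - (c - ρ) = 2 * ρ by ring]
    exact hc1 _ _ (by omega) (by omega) (hk2 _ (by omega))
  · refine gluGood_TB (fun e he => (J14_r3 g e he).1) ?_
    rw [show x0 + 2 * (ρ:ℤ) - x0 = 2 * ρ by ring]
    exact hc1 _ _ (by omega) (by omega) (hk2 _ (by omega))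
  · refine J14_dLR (J14_dreg g (J14_d4 g)).1 ?_
    rw [show -(n:ℤ) + 8 * ρ - (-(n:ℤ) + 4 * ρ) = 4 * ρ by ring]
    exact hc1 _ _ (by omega) (by omega) (hk4 _ (by omega))
  · refine J14_dTB (J14_dreg g (J14_d5 g)).1 ?_
    rw [show -(n:ℤ) + 8 * ρ - (-(n:ℤ) + 4 * ρ) = 4 * ρ by ring]
    exact hc1 _ _ (by omega) (by omega) (hk4 _ (by omega))
  · refine J14_dLR (J14_dreg g (J14_d6 g)).1 ?_
    rw [show (n:ℤ) - 4 * ρ - ((n:ℤ) - 8 * ρ) = 4 * ρ by ring]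
    exact hc1 _ _ (by omega) (by omega) (hk4 _ (by omega))
  · refine J14_dTB (J14_dreg g (J14_d7 g)).1 ?_
    rw [show (n:ℤ) - 4 * ρ - ((n:ℤ) - 8 * ρ) = 4 * ρ by ring]
    exact hc1 _ _ (by omega) (by omega) (hk4 _ (by omega))
  · refine J14_dTB (J14_dreg g (J14_d8 g)).1 ?_
    rw [show (n:ℤ) - 4 * ρ - ((n:ℤ) - 8 * ρ) = 4 * ρ by ring]
    exact hc1 _ _ (by omega) (by omega) (hk4 _ (by omega))

/-- the deterministic part in flipped coordinates -/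
theorem J14_conn (g : JG n m ρ b c s c' x0) {f : Vtx} (hf : corner (0, 0) f) {w : Finset Edg}
    (hw : w ⊆ boxE m)
    (hE : TvI n m ρ c ↑(unD (boxE m) (DD n ρ b c s c') w) ∧
      TfSI n m ρ s c' ↑(unD (boxE m) (DD n ρ b c s c') w))
    (hS : SepT f b (x0 + 2 * ρ) ↑(unD (boxE m) (DD n ρ b c s c') w))
    (hL : ∀ A ∈ J14_L n ρ c x0, A w) :
    A2g m f ↑(unD (boxE m) (DD n ρ b c s c') w) := by
  unfold J14_L at hL
  simp only [List.forall_mem_cons] at hL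
  obtain ⟨R1, R2, R3, R4, R5, R6, R7, R8, -⟩ := hL
  set F : Finset Edg := unD (boxE m) (DD n ρ b c s c') w with hF
  -- open edges
  have ho : ∀ R : Finset Edg,
      InReg (fun e => e ∈ boxE m \ (annE n m ∪ boxE b) ∧ e ∉ DD n ρ b c s c') R →
      (↑w : Set Edg) ∩ ↑R ⊆ ((↑F : Set Edg) ∩ ↑(boxE m)) ∩ ↑R := by
    rintro R hR e ⟨h1, h2⟩
    have h3 := hR e h2
    refine ⟨⟨?_, hw h1⟩, h2⟩
    rw [hF, Finset.mem_coe, mem_unD]
    exact Or.inl ⟨h1, hw h1, h3.2⟩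
  have hd : ∀ R : Finset Edg, R ⊆ dmp (DD n ρ b c s c') →
      (↑(dmp w) : Set Edg) ∩ ↑R ⊆ (dl '' (↑(boxE m) \ (↑F : Set Edg))) ∩ ↑R := by
    rintro R hR e ⟨h1, h2⟩
    have h3 := hR h2
    rw [Finset.mem_coe, mem_dmp] at h1
    rw [mem_dmp] at h3
    refine ⟨⟨dl.symm e, ⟨hw h1, ?_⟩, dl.apply_symm_apply e⟩, h2⟩
    rw [hF, Finset.mem_coe, mem_unD]
    rintro (h4 | h4)
    · exact h4.2.2 h3
    · exact h4.2 h1
  obtain ⟨x1, x1', -, -, r1⟩ := R1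
  obtain ⟨y2, y2', -, -, r2⟩ := R2
  obtain ⟨x3, x3', -, -, r3⟩ := R3
  obtain ⟨y4, y4', -, -, r4⟩ := R4
  obtain ⟨x5, x5', -, -, r5⟩ := R5
  obtain ⟨y6, y6', -, -, r6⟩ := R6
  obtain ⟨x7, x7', -, -, r7⟩ := R7
  obtain ⟨x8, x8', -, -, r8⟩ := R8
  unfold corner at hf
  simp only at hf
  refine ⟨?_, ?_⟩
  · exact J14_openchain g.hρ g.h100 g.hc g.hm g.hb g.hb' g.hx0 g.hx0' hS.1 hE.1 rfl
      (r1.mono (ho _ (J14_r1 g))) (r2.mono (ho _ (J14_r2 g))) (r3.mono (ho _ (J14_r3 g)))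
  · exact J14_ring g.hρ g.h100 g.hc g.hc' g.hs g.hm g.hb g.hb' (by omega) hS.2 hE.2 rfl
      (r4.mono (hd _ (J14_dreg g (J14_d4 g)).2)) (r5.mono (hd _ (J14_dreg g (J14_d5 g)).2))
      (r6.mono (hd _ (J14_dreg g (J14_d6 g)).2)) (r7.mono (hd _ (J14_dreg g (J14_d7 g)).2))
      (r8.mono (hd _ (J14_dreg g (J14_d8 g)).2))

/-- the product estimate -/
theorem J14_main (g : JG n m ρ b c s c' x0) {f : Vtx} (hf : corner (0, 0) f) {B : ℕ}
    (hB : n ≤ B * ρ) {c1 : ℝ} (hc10 : 0 < c1)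
    (hc1 : ∀ w h : ℤ, 0 < w → 1 ≤ h → w ≤ ((2 * B + 40 : ℕ) : ℤ) * h → c1 ≤ hh (1 / 2) w h) :
    H12S.PQ (1 / 2) (annE n m ∪ tubeI n ρ c ∪ (sy s).toLSym.mp (tubeI n ρ c'))
      (fun F => TvI n m ρ c ↑F ∧ TfSI n m ρ s c' ↑F) *
    H12S.PQ (1 / 2) (RE (-(3 * b : ℕ)) (3 * b : ℕ) (-(b : ℕ)) (b : ℕ)) (fun F => SepR f b ↑F) *
      c1 ^ 8 ≤ H12S.PQ (1 / 2) (boxE m) (fun F => A2g m f ↑F) := by
  have ok : Ok (fun _ : Edg => (1 / 2 : ℝ)) := okq (by norm_num) (by norm_num)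
  have hnm : n ≤ m := by have := g.hm; omega
  have hbn := J14_b_le_n g
  have hbox := J14_box_sub hnm
  have hρ := g.hρ
  have h100 := g.h100
  have hb3 := g.hb
  have hb3' := g.hb'
  have hx := g.hx0
  have hx' := g.hx0'
  set D := DD n ρ b c s c' with hD
  have hDΩ : D ⊆ boxE m := J14_DD_sub g
  have mE := J14_mono_EI n m ρ c c' s
  have mS := J14_mono_Sep f b (x0 + 2 * ρ)
  -- locality
  have e1 : H12S.PQ (1 / 2) (annE n m ∪ tubeI n ρ c ∪ (sy s).toLSym.mp (tubeI n ρ c'))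
      (fun F => TvI n m ρ c ↑F ∧ TfSI n m ρ s c' ↑F) =
      Pr (fun _ => (1 / 2 : ℝ)) (boxE m) (fun F => TvI n m ρ c ↑F ∧ TfSI n m ρ s c' ↑F) := by
    symm
    apply Pr_local
    · refine Finset.union_subset (Finset.union_subset J14_ann_sub ?_) ?_
      · exact (J14_tube_sub_box g.hc).trans hbox
      · intro e he
        exact hbox (J14_Ts g.hc' he).1
    · intro F _
      refine J14_local mE ?_ ?_ F
      · exact Finset.subset_union_left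
      · intro e he
        rw [Finset.mem_union] at he
        rw [Finset.mem_union, Finset.mem_union]
        rcases he with he | he
        · exact Or.inl (Or.inl he)
        · exact Or.inr he
  have hRb : RE (-(3 * b : ℕ)) (3 * b : ℕ) (-(b : ℕ)) (b : ℕ) ⊆ boxE m := by
    rintro ⟨x, y, _ | _⟩ h
    · rw [mem_RE_false] at h
      rw [J14_box_false]
      omega
    · rw [mem_RE_true] at h
      rw [J14_box_true]
      omega
  have e2 : H12S.PQ (1 / 2) (RE (-(3 * b : ℕ)) (3 * b : ℕ) (-(b : ℕ)) (b : ℕ))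
      (fun F => SepR f b ↑F) ≤
      Pr (fun _ => (1 / 2 : ℝ)) (boxE m) (fun F => SepT f b (x0 + 2 * ρ) ↑F) := by
    have h1 : H12S.PQ (1 / 2) (RE (-(3 * b : ℕ)) (3 * b : ℕ) (-(b : ℕ)) (b : ℕ))
        (fun F => SepR f b ↑F) ≤
        Pr (fun _ => (1 / 2 : ℝ)) (RE (-(3 * b : ℕ)) (3 * b : ℕ) (-(b : ℕ)) (b : ℕ))
        (fun F => SepT f b (x0 + 2 * ρ) ↑F) :=
      Pr_mono ok (fun F _ h => J14_sepT (by omega) (by push_cast; omega) h)
    refine h1.trans (le_of_eq ?_)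
    symm
    apply Pr_local hRb
    intro F _
    refine J14_local mS ?_ ?_ F
    · rintro ⟨x, y, _ | _⟩ h
      · rw [mem_RE_false] at h ⊢
        push_cast
        omega
      · rw [mem_RE_true] at h ⊢
        push_cast
        omega
    · rintro ⟨x, y, _ | _⟩ h
      · rw [mem_RE_false] at h ⊢
        push_cast at h ⊢
        omega
      · rw [mem_RE_true] at h ⊢
        push_cast at h ⊢
        omega
  -- flipping
  have f1 := J14_flip hDΩ (fun F => TvI n m ρ c ↑F ∧ TfSI n m ρ s c' ↑F)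
  have f2 := J14_flip hDΩ (fun F => SepT f b (x0 + 2 * ρ) ↑F)
  have f3 := J14_flip hDΩ (fun F => A2g m f ↑F)
  -- disjointness
  have hZ1 : annE n m ⊆ boxE m := J14_ann_sub
  have hZ2 : boxE b ⊆ boxE m := (J14_box_sub hbn).trans hbox
  have dT : Disjoint (tubeI n ρ c) D := by
    rw [Finset.disjoint_left]
    intro e he
    have h1 := J14_tubeI g he
    exact J14_not_DD g (Or.inr (Or.inr ⟨Or.inl h1.2.1, Or.inl h1.2.2⟩))
  have dXo1 : Disjoint (annE n m ∪ tubeI n ρ c) D :=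
    Finset.disjoint_union_left.2 ⟨J14_dis_ann, dT⟩
  have hXd1 : annE n m ∪ (sy s).toLSym.mp (tubeI n ρ c') ⊆ annE n m ∪ D :=
    Finset.union_subset_union_right (fun e he => J14_Ts_D g he)
  have hXo1 : annE n m ∪ tubeI n ρ c ⊆ boxE m :=
    Finset.union_subset hZ1 ((J14_tube_sub_box g.hc).trans hbox)
  have dXo1Z : Disjoint (annE n m ∪ tubeI n ρ c) (boxE b) := by
    refine Finset.disjoint_union_left.2 ⟨J14_dis_ab g, ?_⟩
    rw [Finset.disjoint_left]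
    intro e he
    exact J14_not_b (Or.inl (J14_tubeI g he).2.1)
  have dXd1Z : Disjoint (annE n m ∪ (sy s).toLSym.mp (tubeI n ρ c')) (boxE b) := by
    refine Finset.disjoint_union_left.2 ⟨J14_dis_ab g, ?_⟩
    rw [Finset.disjoint_left]
    intro e he
    exact (mem_DD.1 (J14_Ts_D g he)).2.1
  have hXo2 : RE (-(b : ℤ)) (x0 + 2 * ρ) (-(b : ℤ)) b ⊆ boxE m :=
    fun e he => hbox (J14_Xo2 g he).1
  have dXo2 : Disjoint (RE (-(b : ℤ)) (x0 + 2 * ρ) (-(b : ℤ)) b) D := by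
    rw [Finset.disjoint_left]
    intro e he
    exact (J14_Xo2 g he).2
  have hXd2 : RE (-(3 * b : ℕ)) (b : ℕ) (-(b : ℕ)) (b : ℕ) ⊆ boxE b ∪ D := by
    intro e he
    rw [Finset.mem_union]
    exact (J14_Xd2 g he).2
  have dXo2Z : Disjoint (RE (-(b : ℤ)) (x0 + 2 * ρ) (-(b : ℤ)) b) (annE n m) :=
    J14_dis_ann_of (fun e he => (J14_Xo2 g he).1)
  have dXd2Z : Disjoint (RE (-(3 * b : ℕ)) (b : ℕ) (-(b : ℕ)) (b : ℕ)) (annE n m) :=
    J14_dis_ann_of (fun e he => (J14_Xd2 g he).1)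
  -- first application of Harris' inequality
  have H1 := J14_harris2 ok (J14_dis_ab g) hZ1 hZ2
    (A := fun w => TvI n m ρ c ↑(unD (boxE m) D w) ∧ TfSI n m ρ s c' ↑(unD (boxE m) D w))
    (B := fun w => SepT f b (x0 + 2 * ρ) ↑(unD (boxE m) D w))
    (fun F F' h1 _ h3 h4 => J14_un_mono mE hXo1 dXo1 hXd1 hZ1 J14_dis_ann h1 h3 h4)
    (fun F _ => J14_un_local mE dXo1Z dXd1Z F)
    (fun F F' h1 _ h3 h4 => J14_un_mono mS hXo2 dXo2 hXd2 hZ2 J14_dis_box h1 h3 h4)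
    (fun F _ => J14_un_local mS dXo2Z dXd2Z F)
  -- second application
  have hgood := J14_L_good g hB hc1
  have hinter : ∀ {F F' Z Z' : Finset Edg}, Z ⊆ Z' → F ∩ Z' = F' ∩ Z' → F ∩ Z = F' ∩ Z := by
    intro F F' Z Z' hZ h
    ext e
    rw [Finset.mem_inter, Finset.mem_inter]
    constructor
    · rintro ⟨h1, h2⟩
      have h3 : e ∈ F ∩ Z' := Finset.mem_inter.2 ⟨h1, hZ h2⟩
      rw [h] at h3
      exact ⟨(Finset.mem_inter.1 h3).1, h2⟩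
    · rintro ⟨h1, h2⟩
      have h3 : e ∈ F' ∩ Z' := Finset.mem_inter.2 ⟨h1, hZ h2⟩
      rw [← h] at h3
      exact ⟨(Finset.mem_inter.1 h3).1, h2⟩
  have H2 := glu_cond_harris ok (Ω := boxE m) (Z := annE n m ∪ boxE b)
    (Finset.union_subset hZ1 hZ2)
    (A := fun w => (TvI n m ρ c ↑(unD (boxE m) D w) ∧ TfSI n m ρ s c' ↑(unD (boxE m) D w)) ∧
      SepT f b (x0 + 2 * ρ) ↑(unD (boxE m) D w))
    (G := fun w => ∀ A ∈ J14_L n ρ c x0, A w)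
    (fun F F' h1 _ h3 h4 =>
      ⟨J14_un_mono mE hXo1 dXo1 hXd1 hZ1 J14_dis_ann h1 (hinter Finset.subset_union_left h3) h4.1,
      J14_un_mono mS hXo2 dXo2 hXd2 hZ2 J14_dis_box h1 (hinter Finset.subset_union_right h3) h4.2⟩)
    (fun w w' h1 h2 h3 A hA => (hgood A hA).inc w w' h1 h2 (h3 A hA))
    (fun w hw => ⟨fun h A hA => ((hgood A hA).loc w hw).1 (h A hA),
      fun h A hA => ((hgood A hA).loc w hw).2 (h A hA)⟩)
  have hP := glu_harris_list ok hc10.le (J14_L n ρ c x0) (fun A hA => (hgood A hA).inc)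
    (fun A hA => (hgood A hA).pr)
  have hlen : (J14_L n ρ c x0).length = 8 := rfl
  rw [hlen] at hP
  have hI : Pr (fun _ => (1 / 2 : ℝ)) (boxE m) (fun w =>
      ((TvI n m ρ c ↑(unD (boxE m) D w) ∧ TfSI n m ρ s c' ↑(unD (boxE m) D w)) ∧
      SepT f b (x0 + 2 * ρ) ↑(unD (boxE m) D w)) ∧ ∀ A ∈ J14_L n ρ c x0, A w) ≤
      Pr (fun _ => (1 / 2 : ℝ)) (boxE m) (fun w => A2g m f ↑(unD (boxE m) D w)) :=
    Pr_mono ok (fun w hw h => J14_conn g hf hw h.1.1 h.1.2 h.2)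
  have n1 := Pr_nonneg ok (boxE m) (fun F => TvI n m ρ c ↑F ∧ TfSI n m ρ s c' ↑F)
  have n2 := Pr_nonneg ok (boxE m) (fun w =>
      (TvI n m ρ c ↑(unD (boxE m) D w) ∧ TfSI n m ρ s c' ↑(unD (boxE m) D w)) ∧
      SepT f b (x0 + 2 * ρ) ↑(unD (boxE m) D w))
  rw [e1]
  calc Pr (fun _ => (1 / 2 : ℝ)) (boxE m) (fun F => TvI n m ρ c ↑F ∧ TfSI n m ρ s c' ↑F) *
        H12S.PQ (1 / 2) (RE (-(3 * b : ℕ)) (3 * b : ℕ) (-(b : ℕ)) (b : ℕ))
          (fun F => SepR f b ↑F) * c1 ^ 8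
      ≤ Pr (fun _ => (1 / 2 : ℝ)) (boxE m) (fun F => TvI n m ρ c ↑F ∧ TfSI n m ρ s c' ↑F) *
        Pr (fun _ => (1 / 2 : ℝ)) (boxE m) (fun F => SepT f b (x0 + 2 * ρ) ↑F) * c1 ^ 8 := by
        apply mul_le_mul_of_nonneg_right _ (by positivity)
        exact mul_le_mul_of_nonneg_left e2 n1
    _ ≤ Pr (fun _ => (1 / 2 : ℝ)) (boxE m) (fun w =>
        (TvI n m ρ c ↑(unD (boxE m) D w) ∧ TfSI n m ρ s c' ↑(unD (boxE m) D w)) ∧
        SepT f b (x0 + 2 * ρ) ↑(unD (boxE m) D w)) * c1 ^ 8 := by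
        apply mul_le_mul_of_nonneg_right _ (by positivity)
        rw [f1, f2]
        exact H1
    _ ≤ Pr (fun _ => (1 / 2 : ℝ)) (boxE m) (fun w =>
        (TvI n m ρ c ↑(unD (boxE m) D w) ∧ TfSI n m ρ s c' ↑(unD (boxE m) D w)) ∧
        SepT f b (x0 + 2 * ρ) ↑(unD (boxE m) D w)) *
        Pr (fun _ => (1 / 2 : ℝ)) (boxE m) (fun w => ∀ A ∈ J14_L n ρ c x0, A w) :=
        mul_le_mul_of_nonneg_left hP n2
    _ ≤ _ := H2
    _ ≤ _ := hI
    _ = _ := f3.symm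

end Regions

theorem j14 : St_J14 := by
  rintro ⟨cL, f, hcL, hf, hL⟩ ⟨CU, hCU, hU⟩ B
  obtain ⟨c1, hc1, hlong⟩ := glu_hh_long' (2 * B + 40)
  refine ⟨CU / (cL * c1 ^ 8), by positivity, ?_⟩
  intro n m ρ c s c' hρ hn h100 hc hc' hs hm
  have g : JG n m ρ (n / 3) c s c' ((n / 2 : ℕ) : ℤ) :=
    ⟨hρ, h100, hc, hc', hs, hm, by omega, by omega, by omega, by omega⟩
  have hmain := J14_main g hf hn hc1 hlong
  have hb1 : 1 ≤ n / 3 := by omega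
  have hn1 : 1 ≤ n := by omega
  have hm1 : 1 ≤ m := by omega
  have hL' := hL (n / 3) hb1
  have hU' := hU f hf m hm1
  set P := H12S.PQ (1 / 2) (annE n m ∪ tubeI n ρ c ∪ (sy s).toLSym.mp (tubeI n ρ c'))
      (fun F => TvI n m ρ c ↑F ∧ TfSI n m ρ s c' ↑F) with hPdef
  have ok : Ok (fun _ : Edg => (1 / 2 : ℝ)) := okq (by norm_num) (by norm_num)
  have hP0 : 0 ≤ P := Pr_nonneg ok _ _
  have hnr : (1:ℝ) ≤ n := by exact_mod_cast hn1
  have hmr : (1:ℝ) ≤ m := by exact_mod_cast hm1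
  have hbr : (1:ℝ) ≤ ((n / 3 : ℕ) : ℝ) := by exact_mod_cast hb1
  have hbn : ((n / 3 : ℕ) : ℝ) ≤ n := by exact_mod_cast Nat.div_le_self n 3
  have hpow : (n:ℝ) ^ (-(1/4 : ℝ)) ≤ ((n / 3 : ℕ) : ℝ) ^ (-(1/4 : ℝ)) :=
    Real.rpow_le_rpow_of_nonpos (by linarith) hbn (by norm_num)
  have hn4 : 0 < (n:ℝ) ^ (1/4 : ℝ) := Real.rpow_pos_of_pos (by linarith) _
  have hneg : (n:ℝ) ^ (-(1/4 : ℝ)) = ((n:ℝ) ^ (1/4 : ℝ))⁻¹ := Real.rpow_neg (by linarith) _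
  have hmneg : (m:ℝ) ^ (-(1/4 : ℝ)) = ((m:ℝ) ^ (1/4 : ℝ))⁻¹ := Real.rpow_neg (by linarith) _
  have h1 : P * (cL * (n:ℝ) ^ (-(1/4 : ℝ))) * c1 ^ 8 ≤ CU * (m:ℝ) ^ (-(1/4 : ℝ)) := by
    refine le_trans ?_ (hmain.trans hU')
    apply mul_le_mul_of_nonneg_right _ (by positivity)
    apply mul_le_mul_of_nonneg_left _ hP0
    exact (mul_le_mul_of_nonneg_left hpow hcL.le).trans hL'
  rw [Real.div_rpow (by linarith) (by linarith), div_mul_eq_mul_div, le_div_iff₀ (by positivity)]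
  have h2 : P * (cL * (n:ℝ) ^ (-(1/4 : ℝ))) * c1 ^ 8 * (n:ℝ) ^ (1/4 : ℝ) = P * (cL * c1 ^ 8) := by
    rw [hneg]
    field_simp
  rw [← h2]
  calc P * (cL * (n:ℝ) ^ (-(1/4 : ℝ))) * c1 ^ 8 * (n:ℝ) ^ (1/4 : ℝ)
      ≤ CU * (m:ℝ) ^ (-(1/4 : ℝ)) * (n:ℝ) ^ (1/4 : ℝ) :=
        mul_le_mul_of_nonneg_right h1 hn4.le
    _ = CU * ((n:ℝ) ^ (1/4 : ℝ) / (m:ℝ) ^ (1/4 : ℝ)) := by
        rw [hmneg]
        ring

end H934I
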