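import Pool.Agent.H934R3.TI.Props
import Pool.Agent.H985R3.TA.GLU
import Pool.Agent.H985R3.TA.SYM

/-!
# J14: gluing with the inner separated arms, part 1 (tools)
-/

set_option autoImplicit false

namespace H934I

open H974 H985T Finset

/-! ### Harris' inequality for two events, conditionally on two disjoint sets -/

theorem J14_harris2 {E : Type*} [DecidableEq E] {p : E → ℝ} (hp : Ok p) {Ω Z1 Z2 : Finset E}
    (h12 : Disjoint Z1 Z2) (hZ1 : Z1 ⊆ Ω) (hZ2 : Z2 ⊆ Ω) {A B : Finset E → Prop}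
    (hA : ∀ F F', F ⊆ F' → F' ⊆ Ω → F ∩ Z1 = F' ∩ Z1 → A F → A F')
    (hA2 : ∀ F, F ⊆ Ω → (A F ↔ A (F \ Z2)))
    (hB : ∀ F F', F ⊆ F' → F' ⊆ Ω → F ∩ Z2 = F' ∩ Z2 → B F → B F')
    (hB1 : ∀ F, F ⊆ Ω → (B F ↔ B (F \ Z1))) :
    Pr p Ω A * Pr p Ω B ≤ Pr p Ω (fun F => A F ∧ B F) := by
  set W := (Ω \ Z1) \ Z2 with hW
  have hZ2' : Z2 ⊆ Ω \ Z1 := by
    intro e he
    exact Finset.mem_sdiff.2 ⟨hZ2 he, fun h => Finset.disjoint_left.1 h12 h he⟩
  have e1 : Ω = Z1 ∪ (Z2 ∪ W) := by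
    rw [hW, Finset.union_sdiff_of_subset hZ2', Finset.union_sdiff_of_subset hZ1]
  have hWΩ : W ⊆ Ω := Finset.sdiff_subset.trans Finset.sdiff_subset
  have dW1 : Disjoint Z1 W := by
    rw [Finset.disjoint_left]
    intro e h1 h2
    exact (Finset.mem_sdiff.1 (Finset.mem_sdiff.1 h2).1).2 h1
  have dW2 : Disjoint Z2 W := by
    rw [Finset.disjoint_left]
    intro e h1 h2
    exact (Finset.mem_sdiff.1 h2).2 h1
  have d1 : Disjoint Z1 (Z2 ∪ W) := by
    rw [Finset.disjoint_union_right]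
    exact ⟨h12, dW1⟩
  have key : ∀ f : Finset E → ℝ, Ex p Ω f =
      Ex p Z1 (fun z1 => Ex p Z2 (fun z2 => Ex p W (fun w => f (z1 ∪ (z2 ∪ w))))) := by
    intro f
    conv_lhs => rw [e1]
    rw [Ex_union d1]
    apply Ex_congr
    intro z1 _
    rw [Ex_union dW2]
  have sub : ∀ z1, z1 ⊆ Z1 → ∀ z2, z2 ⊆ Z2 → ∀ w, w ⊆ W → z1 ∪ (z2 ∪ w) ⊆ Ω := by
    intro z1 h1 z2 h2 w hw
    exact Finset.union_subset (h1.trans hZ1) (Finset.union_subset (h2.trans hZ2) (hw.trans hWΩ))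
  have eA : ∀ z1, z1 ⊆ Z1 → ∀ z2, z2 ⊆ Z2 → ∀ w, w ⊆ W → (A (z1 ∪ (z2 ∪ w)) ↔ A (z1 ∪ w)) := by
    intro z1 h1 z2 h2 w hw
    rw [hA2 _ (sub z1 h1 z2 h2 w hw)]
    have : (z1 ∪ (z2 ∪ w)) \ Z2 = z1 ∪ w := by
      ext e
      rw [Finset.mem_sdiff, Finset.mem_union, Finset.mem_union, Finset.mem_union]
      constructor
      · rintro ⟨h3 | h3 | h3, h4⟩
        · exact Or.inl h3
        · exact absurd (h2 h3) h4
        · exact Or.inr h3
      · rintro (h3 | h3)
        · exact ⟨Or.inl h3, fun h4 => Finset.disjoint_left.1 h12 (h1 h3) h4⟩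
        · exact ⟨Or.inr (Or.inr h3), fun h4 => Finset.disjoint_left.1 dW2 h4 (hw h3)⟩
    rw [this]
  have eB : ∀ z1, z1 ⊆ Z1 → ∀ z2, z2 ⊆ Z2 → ∀ w, w ⊆ W → (B (z1 ∪ (z2 ∪ w)) ↔ B (z2 ∪ w)) := by
    intro z1 h1 z2 h2 w hw
    rw [hB1 _ (sub z1 h1 z2 h2 w hw)]
    have : (z1 ∪ (z2 ∪ w)) \ Z1 = z2 ∪ w := by
      ext e
      rw [Finset.mem_sdiff, Finset.mem_union, Finset.mem_union]
      constructor
      · rintro ⟨h3 | h3, h4⟩
        · exact absurd (h1 h3) h4
        · exact h3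
      · intro h3
        refine ⟨Or.inr h3, fun h4 => ?_⟩
        rcases h3 with h3 | h3
        · exact Finset.disjoint_left.1 h12 h4 (h2 h3)
        · exact Finset.disjoint_left.1 dW1 h4 (hw h3)
    rw [this]
  have hPA : Pr p Ω A = Ex p Z1 (fun z1 => Ex p W (fun w => ind (A (z1 ∪ w)))) := by
    unfold Pr
    rw [key]
    apply Ex_congr
    intro z1 h1
    have : ∀ z2, z2 ⊆ Z2 → Ex p W (fun w => ind (A (z1 ∪ (z2 ∪ w)))) =
        Ex p W (fun w => ind (A (z1 ∪ w))) := by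
      intro z2 h2
      exact Ex_congr fun w hw => ind_congr (eA z1 h1 z2 h2 w hw)
    rw [Ex_congr this, Ex_const]
  have hPB : Pr p Ω B = Ex p Z2 (fun z2 => Ex p W (fun w => ind (B (z2 ∪ w)))) := by
    unfold Pr
    rw [key]
    have : ∀ z1, z1 ⊆ Z1 → Ex p Z2 (fun z2 => Ex p W (fun w => ind (B (z1 ∪ (z2 ∪ w))))) =
        Ex p Z2 (fun z2 => Ex p W (fun w => ind (B (z2 ∪ w)))) := by
      intro z1 h1
      apply Ex_congr
      intro z2 h2
      exact Ex_congr fun w hw => ind_congr (eB z1 h1 z2 h2 w hw)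
    rw [Ex_congr this, Ex_const]
  rw [hPA, hPB]
  unfold Pr
  rw [key, ← Ex_mul_right]
  apply Ex_mono hp
  intro z1 h1
  rw [← Ex_mul_left]
  apply Ex_mono hp
  intro z2 h2
  have h3 : Ex p W (fun w => ind (A (z1 ∪ (z2 ∪ w)) ∧ B (z1 ∪ (z2 ∪ w)))) =
      Ex p W (fun w => ind (A (z1 ∪ w)) * ind (B (z2 ∪ w))) := by
    apply Ex_congr
    intro w hw
    rw [ind_and, ind_congr (eA z1 h1 z2 h2 w hw), ind_congr (eB z1 h1 z2 h2 w hw)]
  rw [h3]
  exact harris hp (S := W) (f := fun w => ind (A (z1 ∪ w))) (g := fun w => ind (B (z2 ∪ w)))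
    (by
      intro w w' hw hw'
      apply ind_mono
      apply hA
      · exact Finset.union_subset_union_right hw
      · exact Finset.union_subset (h1.trans hZ1) (hw'.trans hWΩ)
      · ext e
        rw [Finset.mem_inter, Finset.mem_inter, Finset.mem_union, Finset.mem_union]
        constructor
        · rintro ⟨h4 | h4, h5⟩
          · exact ⟨Or.inl h4, h5⟩
          · exact absurd h5 (fun h6 => Finset.disjoint_left.1 dW1 h6 (hw' (hw h4)))
        · rintro ⟨h4 | h4, h5⟩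
          · exact ⟨Or.inl h4, h5⟩
          · exact absurd h5 (fun h6 => Finset.disjoint_left.1 dW1 h6 (hw' h4)))
    (by
      intro w w' hw hw'
      apply ind_mono
      apply hB
      · exact Finset.union_subset_union_right hw
      · exact Finset.union_subset (h2.trans hZ2) (hw'.trans hWΩ)
      · ext e
        rw [Finset.mem_inter, Finset.mem_inter, Finset.mem_union, Finset.mem_union]
        constructor
        · rintro ⟨h4 | h4, h5⟩
          · exact ⟨Or.inl h4, h5⟩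
          · exact absurd h5 (fun h6 => Finset.disjoint_left.1 dW2 h6 (hw' (hw h4)))
        · rintro ⟨h4 | h4, h5⟩
          · exact ⟨Or.inl h4, h5⟩
          · exact absurd h5 (fun h6 => Finset.disjoint_left.1 dW2 h6 (hw' h4)))

/-! ### Paths stay in rectangles -/

theorem J14_inR {H : Set Edg} {a b c d : ℤ} (hH : H ⊆ ↑(RE a b c d)) {u w : Vtx}
    (hu : inR a b c d u) (h : Reach H u w) : inR a b c d w := by
  induction h with
  | refl => exact hu
  | @tail v w _ hs _ =>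
    obtain ⟨⟨x, y, β⟩, he, hc⟩ := hs
    have he2 := Finset.mem_coe.1 (hH he)
    unfold inR
    cases β
    · rw [mem_RE_false] at he2
      simp only [src_mk, tgt_false, Prod.ext_iff] at hc
      omega
    · rw [mem_RE_true] at he2
      simp only [src_mk, tgt_true, Prod.ext_iff] at hc
      omega

/-- the dual of a rectangle is contained in a rectangle -/
theorem J14_dmp_sub {a b c d : ℤ} : dmp (RE a b c d) ⊆ RE (a - 1) b (c - 1) d := by
  rintro ⟨x, y, _ | _⟩ h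
  · rw [mem_dmp, dls_f, mem_RE_true] at h
    rw [mem_RE_false]
    omega
  · rw [mem_dmp, dls_t, mem_RE_false] at h
    rw [mem_RE_true]
    omega

end H934I
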