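import Pool.Agent.H934R3.TI.J14a

/-!
# J14: gluing with the inner separated arms, part 2 (deterministic part)
-/

set_option autoImplicit false

namespace H934I

open H974 H985T Finset

/-- truncated separated arms -/
def SepT (f : Vtx) (b : ℕ) (x1 : ℤ) (F : Set Edg) : Prop :=
  (∃ y : Vtx, y.1 = x1 ∧ Reach (F ∩ ↑(RE (-(b : ℤ)) x1 (-(b : ℤ)) b)) (0, 0) y) ∧
    ∃ g : Vtx, g.1 < -(3 * b : ℕ) ∧
      DReach (↑(RE (-(3 * b : ℕ)) (b : ℕ) (-(b : ℕ)) (b : ℕ)) \ F : Set Edg) f g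

theorem J14_sepT {f : Vtx} {b : ℕ} {x1 : ℤ} (h0 : 0 ≤ x1) (h1 : x1 ≤ (3 * b : ℕ)) {F : Set Edg}
    (h : SepR f b F) : SepT f b x1 F := by
  refine ⟨?_, h.2⟩
  obtain ⟨y, hy, P⟩ := h.1
  obtain ⟨w, hw1, hw2, hw3⟩ := first_exit (a := -(b : ℤ) - 1) (b := x1) (c := -(b : ℤ) - 1)
    (d := (b : ℤ) + 1) (u := (0, 0)) (by unfold inR; simp only; omega) P
    (by right; left; rw [hy]; exact h1)
  have hin := J14_inR (H := F ∩ ↑(RE (-(b : ℕ)) (3 * b : ℕ) (-(b : ℕ)) (b : ℕ)))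
    Set.inter_subset_right (u := (0, 0)) (by unfold inR; simp only; omega)
    (hw3.mono Set.inter_subset_left)
  have hwx : w.1 = x1 := by
    unfold inR at hin
    rcases hw2 with h2 | h2 | h2 | h2
    · omega
    · exact h2
    · omega
    · omega
  refine ⟨w, hwx, hw3.mono ?_⟩
  rintro ⟨x, y', _ | _⟩ ⟨⟨h3, h4⟩, h5⟩
  · refine ⟨h3, ?_⟩
    rw [Finset.mem_coe, mem_RE_false] at h4 h5 ⊢
    omega
  · refine ⟨h3, ?_⟩
    rw [Finset.mem_coe, mem_RE_true] at h4 h5 ⊢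
    omega

theorem J14_tube_sub_box {n ρ : ℕ} {c : ℤ} (hc : |c| + 20 * ρ ≤ n) : tubeI n ρ c ⊆ boxE n := by
  have := abs_le.1 (show |c| ≤ (n : ℤ) - 20 * ρ by omega)
  unfold tubeI boxE
  rintro ⟨x, y, _ | _⟩ h
  · rw [mem_RE_false] at h ⊢; omega
  · rw [mem_RE_true] at h ⊢; omega

/-- the open arm crosses the inner part of its tube -/
theorem J14_open {n m ρ : ℕ} {c : ℤ} (hρ : 1 ≤ ρ) (hc : |c| + 20 * ρ ≤ n) (hm : 2 * n ≤ m)
    {F : Set Edg} (h : TvI n m ρ c F) : ∃ v, onB m v ∧ ∃ y1 y2 : ℤ,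
      Reach (F ∩ ↑(boxE m) ∩ ↑(LRE ((n:ℤ) - 10 * ρ) ((n:ℤ) - 8 * ρ - 1) (c - ρ) (c + ρ)))
        ((n:ℤ) - 10 * ρ, y1) ((n:ℤ) - 8 * ρ - 1, y2) ∧
      Reach (F ∩ ↑(boxE m)) ((n:ℤ) - 10 * ρ, y1) v := by
  have hc' := abs_le.1 (show |c| ≤ (n : ℤ) - 20 * ρ by omega)
  have hmn : boxE n ⊆ boxE m := by
    unfold boxE
    rintro ⟨x, y, _ | _⟩ h
    · rw [mem_RE_false] at h ⊢; omega
    · rw [mem_RE_true] at h ⊢; omega
  have htm := (J14_tube_sub_box hc).trans hmn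
  obtain ⟨z2, hz, v, hv, P⟩ := h
  have hz' := abs_le.1 hz
  have hv2 := hv.2
  obtain ⟨w, hw1, hw2, hw3⟩ := first_exit (a := (n:ℤ) - 14 * ρ) (b := n) (c := c - 2 * ρ)
    (d := c + 2 * ρ) (u := ((n:ℤ) - 10 * ρ, z2)) (by unfold inR; simp only; omega) P
    (by omega)
  have hsub : (F ∩ ↑(annE n m ∪ tubeI n ρ c)) ∩ ↑(RE ((n:ℤ) - 14 * ρ) n (c - 2 * ρ) (c + 2 * ρ)) ⊆
      F ∩ ↑(tubeI n ρ c) := by
    rintro e ⟨⟨h1, h2⟩, h3⟩
    refine ⟨h1, ?_⟩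
    rw [Finset.mem_coe, Finset.mem_union] at h2
    rcases h2 with h2 | h2
    · exfalso
      unfold annE at h2
      rw [Finset.mem_sdiff] at h2
      apply h2.2
      obtain ⟨x, y, _ | _⟩ := e
      · rw [Finset.mem_coe, mem_RE_false] at h3
        unfold boxE
        rw [mem_RE_false]; omega
      · rw [Finset.mem_coe, mem_RE_true] at h3
        unfold boxE
        rw [mem_RE_true]; omega
    · exact h2
  have hw4 := hw3.mono hsub
  have hin := J14_inR (H := F ∩ ↑(tubeI n ρ c)) (a := (n:ℤ) - 10 * ρ) (b := n) (c := c - ρ)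
    (d := c + ρ) (by unfold tubeI; exact Set.inter_subset_right)
    (u := ((n:ℤ) - 10 * ρ, z2)) (by unfold inR; simp only; omega) hw4
  have hwx : w.1 = n := by
    unfold inR at hin
    omega
  obtain ⟨y1, y2, -, -, k3, k4⟩ := sub_LR (G := F ∩ ↑(tubeI n ρ c)) (a := (n:ℤ) - 10 * ρ)
    (b := (n:ℤ) - 8 * ρ - 1) (c := c - ρ) (d := c + ρ) (by omega)
    (by
      rintro x y ⟨-, h⟩ _ _
      unfold tubeI at h
      rw [Finset.mem_coe, mem_RE_true] at h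
      omega)
    (by
      rintro x y ⟨-, h⟩ _ _
      unfold tubeI at h
      rw [Finset.mem_coe, mem_RE_false] at h
      omega) hw4 (le_refl _) (by rw [hwx]; omega)
  refine ⟨v, hv, y1, y2, k3.mono ?_, ?_⟩
  · rintro e ⟨⟨h1, h2⟩, h3⟩
    exact ⟨⟨h1, Finset.mem_coe.2 (htm h2)⟩, h3⟩
  · refine (k4.mono ?_).symm.trans (P.mono ?_)
    · rintro e ⟨h1, h2⟩
      exact ⟨h1, Finset.mem_coe.2 (htm h2)⟩
    · rintro e ⟨h1, h2⟩
      refine ⟨h1, ?_⟩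
      rw [Finset.mem_coe, Finset.mem_union] at h2
      rcases h2 with h2 | h2
      · unfold annE at h2
        exact (Finset.mem_sdiff.1 h2).1
      · exact htm h2

/-- the dual arm crosses its tube (right side) -/
theorem J14_dual0 {n m ρ : ℕ} {c : ℤ} (hρ : 1 ≤ ρ) (hc : |c| + 20 * ρ ≤ n) (hm : 2 * n ≤ m)
    {F : Set Edg} (h : TfI n m ρ c F) : ∃ w2 t2 : ℤ, ∃ w ∈ ringF m,
      DReach (↑(tubeI n ρ c) \ F) ((n:ℤ) - 10 * ρ - 1, w2) ((n:ℤ) - 1, t2) ∧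
      DReach (↑(annE n m ∪ tubeI n ρ c) \ F) ((n:ℤ) - 10 * ρ - 1, w2) w := by
  have hc' := abs_le.1 (show |c| ≤ (n : ℤ) - 20 * ρ by omega)
  obtain ⟨w2, hw2, w, hw, P⟩ := h
  have hP := reach_dl.2 P
  have hwr := hw
  unfold ringF at hwr
  obtain ⟨t, ht1, ht2, ht3⟩ := first_exit (a := (n:ℤ) - 14 * ρ) (b := (n:ℤ) - 1) (c := c - 3 * ρ)
    (d := c + 3 * ρ) (u := ((n:ℤ) - 10 * ρ - 1, w2)) (by unfold inR; simp only; omega) hP
    (by
      rcases hwr with h1 | h1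
      · omega
      · omega)
  have hsub : (dl '' (↑(annE n m ∪ tubeI n ρ c) \ F)) ∩
      ↑(RE ((n:ℤ) - 14 * ρ) ((n:ℤ) - 1) (c - 3 * ρ) (c + 3 * ρ)) ⊆
      dl '' (↑(tubeI n ρ c) \ F) := by
    rintro e ⟨⟨e', ⟨h1, h2⟩, rfl⟩, h3⟩
    refine ⟨e', ⟨?_, h2⟩, rfl⟩
    rw [Finset.mem_coe, Finset.mem_union] at h1
    rcases h1 with h1 | h1
    · exfalso
      unfold annE at h1
      rw [Finset.mem_sdiff] at h1
      apply h1.2
      obtain ⟨x, y, _ | _⟩ := e'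
      · rw [dl_f, Finset.mem_coe, mem_RE_true] at h3
        unfold boxE
        rw [mem_RE_false]; omega
      · rw [dl_t, Finset.mem_coe, mem_RE_false] at h3
        unfold boxE
        rw [mem_RE_true]; omega
    · exact h1
  have ht4 := ht3.mono hsub
  have hin := J14_inR (H := dl '' (↑(tubeI n ρ c) \ F)) (a := (n:ℤ) - 10 * ρ - 1) (b := n)
    (c := c - ρ - 1) (d := c + ρ) (by
      refine (Set.image_mono Set.sdiff_subset).trans ?_
      rw [← coe_dmp]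
      unfold tubeI
      exact_mod_cast J14_dmp_sub)
    (u := ((n:ℤ) - 10 * ρ - 1, w2)) (by unfold inR; simp only; omega) ht4
  have htx : t.1 = (n:ℤ) - 1 := by
    unfold inR at hin
    omega
  refine ⟨w2, t.2, w, hw, ?_, P⟩
  have : t = ((n:ℤ) - 1, t.2) := Prod.ext htx rfl
  rw [← this]
  exact reach_dl.1 ht4

end H934I
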