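import Pool.Agent.H934R3.TI.J14b

/-!
# J14: gluing with the inner separated arms, part 3 (the ring)
-/

set_option autoImplicit false

namespace H934I

open H974 H985T Finset

/-! ### the tubes on the four sides -/

theorem J14_T0 (n ρ : ℕ) (c : ℤ) : (sy 0).toLSym.mp (tubeI n ρ c) =
    RE ((n:ℤ) - 10 * ρ) n (c - ρ) (c + ρ) := by
  ext ⟨x, y, b⟩
  rw [LSym.mem_mp, SYM_symm]
  rfl

theorem J14_T1 (n ρ : ℕ) (c : ℤ) : (sy 1).toLSym.mp (tubeI n ρ c) =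
    RE (c - ρ) (c + ρ) ((n:ℤ) - 10 * ρ) n := by
  ext ⟨x, y, b⟩
  rw [LSym.mem_mp, SYM_symm, SYM_1φ]
  unfold tubeI
  cases b
  · rw [Bool.not_false, mem_RE_true, mem_RE_false]; omega
  · rw [Bool.not_true, mem_RE_true, mem_RE_false]; omega

theorem J14_T2 (n ρ : ℕ) (c : ℤ) : (sy 2).toLSym.mp (tubeI n ρ c) =
    RE (-(n:ℤ)) (-(n:ℤ) + 10 * ρ) (-c - ρ) (-c + ρ) := by
  ext ⟨x, y, b⟩
  rw [LSym.mem_mp, SYM_symm]
  unfold tubeI
  cases b
  · rw [SYM_2φf, mem_RE_false, mem_RE_false]; omega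
  · rw [SYM_2φt, mem_RE_true, mem_RE_true]; omega

theorem J14_T3 (n ρ : ℕ) (c : ℤ) : (sy 3).toLSym.mp (tubeI n ρ c) =
    RE (-c - ρ) (-c + ρ) (-(n:ℤ)) (-(n:ℤ) + 10 * ρ) := by
  ext ⟨x, y, b⟩
  rw [LSym.mem_mp, SYM_symm]
  unfold tubeI
  cases b
  · rw [SYM_3φf, mem_RE_false, mem_RE_true]; omega
  · rw [SYM_3φt, mem_RE_true, mem_RE_false]; omega

theorem J14_dl_t {X : Set Edg} {x y : ℤ} (h : ((x, y, true) : Edg) ∈ dl '' X) :
    ((x + 1, y, false) : Edg) ∈ X := by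
  obtain ⟨⟨x', y', b⟩, h1, h2⟩ := h
  cases b
  · rw [dl_f] at h2
    simp only [Prod.mk.injEq, and_true] at h2
    have e1 : x + 1 = x' := by omega
    have e2 : y = y' := by omega
    rw [e1, e2]
    exact h1
  · rw [dl_t] at h2
    simp only [Prod.mk.injEq, Bool.false_eq_true, and_false] at h2

theorem J14_dl_f {X : Set Edg} {x y : ℤ} (h : ((x, y, false) : Edg) ∈ dl '' X) :
    ((x, y + 1, true) : Edg) ∈ X := by
  obtain ⟨⟨x', y', b⟩, h1, h2⟩ := h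
  cases b
  · rw [dl_f] at h2
    simp only [Prod.mk.injEq, Bool.true_eq_false, and_false] at h2
  · rw [dl_t] at h2
    simp only [Prod.mk.injEq, and_true] at h2
    have e1 : x = x' := by omega
    have e2 : y + 1 = y' := by omega
    rw [e1, e2]
    exact h1

theorem J14_img_sdiff (s : Fin 4) (A F : Set Edg) :
    (sy s).φ '' (A \ (sy s).φ '' F) = ((sy s).φ '' A) \ F := by
  ext e
  constructor
  · rintro ⟨e', ⟨h1, h2⟩, rfl⟩
    refine ⟨⟨e', h1, rfl⟩, fun h3 => h2 ⟨_, h3, sy_invol s e'⟩⟩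
  · rintro ⟨⟨e', h1, rfl⟩, h2⟩
    refine ⟨e', ⟨h1, ?_⟩, rfl⟩
    rintro ⟨e'', h3, h4⟩
    apply h2
    rw [← h4, sy_invol]
    exact h3

theorem J14_ring_out {m : ℕ} {w : Vtx} (h : w ∈ ringF m) : w ∈ outF (-(m:ℤ)) m (-(m:ℤ)) m := by
  unfold ringF at h
  unfold outF
  rcases h with h | h
  · simp only [Set.mem_ofPred_eq]
    omega
  · simp only [Set.mem_ofPred_eq]
    omega

theorem J14_out_sy {s : Fin 4} {m : ℕ} {w : Vtx} (h : w ∈ outF (-(m:ℤ)) m (-(m:ℤ)) m) :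
    (sy s).ψf w ∈ outF (-(m:ℤ)) m (-(m:ℤ)) m := by
  obtain ⟨x, y⟩ := w
  unfold outF at h ⊢
  simp only [Set.mem_ofPred_eq] at h
  rcases SYM_cases s with rfl | rfl | rfl | rfl
  · rw [SYM_0f]; exact h
  · rw [SYM_1f]; simp only [Set.mem_ofPred_eq]; omega
  · rw [SYM_2f]; simp only [Set.mem_ofPred_eq]; omega
  · rw [SYM_3f]; simp only [Set.mem_ofPred_eq]; omega

theorem J14_dual {n m ρ : ℕ} {c : ℤ} {s : Fin 4} (hρ : 1 ≤ ρ) (hc : |c| + 20 * ρ ≤ n)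
    (hm : 2 * n ≤ m) {F : Set Edg} (h : TfSI n m ρ s c F) :
    ∃ w2 t2 : ℤ, ∃ w ∈ outF (-(m:ℤ)) m (-(m:ℤ)) m,
      DReach (↑((sy s).toLSym.mp (tubeI n ρ c)) \ F) ((sy s).ψf ((n:ℤ) - 10 * ρ - 1, w2))
        ((sy s).ψf ((n:ℤ) - 1, t2)) ∧
      DReach (↑(boxE m) \ F) ((sy s).ψf ((n:ℤ) - 10 * ρ - 1, w2)) w := by
  obtain ⟨w2, t2, w, hw, h1, h2⟩ := J14_dual0 hρ hc hm h
  refine ⟨w2, t2, (sy s).ψf w, J14_out_sy (J14_ring_out hw), ?_, ?_⟩
  · have h3 := (sy s).dreach h1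
    rw [J14_img_sdiff] at h3
    rw [LSym.coe_mp]
    exact h3
  · have h3 := (sy s).dreach h2
    rw [J14_img_sdiff] at h3
    refine h3.mono ?_
    rintro e ⟨⟨e', h4, rfl⟩, h5⟩
    refine ⟨?_, h5⟩
    rw [Finset.mem_coe, sy_mem_box]
    rw [Finset.mem_coe, Finset.mem_union] at h4
    rcases h4 with h4 | h4
    · unfold annE at h4
      exact (Finset.mem_sdiff.1 h4).1
    · have h6 := J14_tube_sub_box hc h4
      unfold boxE at h6 ⊢
      obtain ⟨x, y, _ | _⟩ := e'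
      · rw [mem_RE_false] at h6 ⊢; omega
      · rw [mem_RE_true] at h6 ⊢; omega

/-- the dual arms meet the ring -/
theorem J14_ring {n m ρ b : ℕ} {c c' : ℤ} {s : Fin 4} (hρ : 1 ≤ ρ) (h100 : 100 * ρ ≤ n)
    (hc : |c| + 20 * ρ ≤ n) (hc' : |c'| + 20 * ρ ≤ n) (hs : s = 0 → 6 * (ρ:ℤ) ≤ |c - c'|)
    (hm : 2 * n ≤ m) (hb : 3 * b ≤ n) (hb' : n ≤ 3 * b + 2) {F : Set Edg} {f : Vtx}
    (hf1 : -1 ≤ f.1 ∧ f.1 ≤ 0)
    (hdual : ∃ g : Vtx, g.1 < -(3 * b : ℕ) ∧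
      DReach (↑(RE (-(3 * b : ℕ)) (b : ℕ) (-(b : ℕ)) (b : ℕ)) \ F : Set Edg) f g)
    (hTf : TfSI n m ρ s c' F) {D : Set Edg} (hD : D = dl '' (↑(boxE m) \ F))
    {y4 y4' x5 x5' y6 y6' x7 x7' x8 x8' : ℤ}
    (r4 : Reach (D ∩ ↑(LRE (-(n:ℤ) + 4 * ρ) ((n:ℤ) - 4 * ρ) (-(n:ℤ) + 4 * ρ) (-(n:ℤ) + 8 * ρ)))
      (-(n:ℤ) + 4 * ρ, y4) ((n:ℤ) - 4 * ρ, y4'))
    (r5 : Reach (D ∩ ↑(TBE (-(n:ℤ) + 4 * ρ) (-(n:ℤ) + 8 * ρ) (-(n:ℤ) + 4 * ρ) ((n:ℤ) - 4 * ρ)))
      (x5, -(n:ℤ) + 4 * ρ) (x5', (n:ℤ) - 4 * ρ))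
    (r6 : Reach (D ∩ ↑(LRE (-(n:ℤ) + 4 * ρ) ((n:ℤ) - 4 * ρ) ((n:ℤ) - 8 * ρ) ((n:ℤ) - 4 * ρ)))
      (-(n:ℤ) + 4 * ρ, y6) ((n:ℤ) - 4 * ρ, y6'))
    (r7 : Reach (D ∩ ↑(TBE ((n:ℤ) - 8 * ρ) ((n:ℤ) - 4 * ρ) (c + 3 * ρ) ((n:ℤ) - 4 * ρ)))
      (x7, c + 3 * ρ) (x7', (n:ℤ) - 4 * ρ))
    (r8 : Reach (D ∩ ↑(TBE ((n:ℤ) - 8 * ρ) ((n:ℤ) - 4 * ρ) (-(n:ℤ) + 4 * ρ) (c - 3 * ρ)))
      (x8, -(n:ℤ) + 4 * ρ) (x8', c - 3 * ρ)) :
    ∃ w ∈ outF (-(m:ℤ)) m (-(m:ℤ)) m, DReach (↑(boxE m) \ F) f w := by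
  have hcb := abs_le.1 (show |c| ≤ (n : ℤ) - 20 * ρ by omega)
  have hcb' := abs_le.1 (show |c'| ≤ (n : ℤ) - 20 * ρ by omega)
  -- the dual arm of `f`
  obtain ⟨g, hg, P⟩ := hdual
  have hsubP : dl '' (↑(RE (-(3 * b : ℕ)) (b : ℕ) (-(b : ℕ)) (b : ℕ)) \ F : Set Edg) ⊆ D := by
    rw [hD]
    apply Set.image_mono
    rintro ⟨x, y, _ | _⟩ ⟨h1, h2⟩
    · refine ⟨?_, h2⟩
      rw [Finset.mem_coe, mem_RE_false] at h1
      unfold boxE
      rw [Finset.mem_coe, mem_RE_false]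
      omega
    · refine ⟨?_, h2⟩
      rw [Finset.mem_coe, mem_RE_true] at h1
      unfold boxE
      rw [Finset.mem_coe, mem_RE_true]
      omega
  have hP := reach_dl.2 P
  obtain ⟨y1, y2, -, -, p1, p2⟩ := sub_LR (a := -(n:ℤ) + 4 * ρ) (b := -(n:ℤ) + 8 * ρ)
    (c := -(b:ℤ) - 1) (d := b) (by omega)
    (by
      intro x y h h1 h2
      have h3 := (J14_dl_t h).1
      rw [Finset.mem_coe, mem_RE_false] at h3
      omega)
    (by
      intro x y h h1 h2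
      have h3 := (J14_dl_f h).1
      rw [Finset.mem_coe, mem_RE_true] at h3
      omega) hP.symm (by omega) (by omega)
  replace p1 := p1.mono (Set.inter_subset_inter_left _ hsubP)
  replace p2 := p2.mono hsubP
  have q5 := glu_meet (by omega) (by omega) (by omega) (by omega) (by omega) (by omega) p1 r5
  have q4 := glu_meet (by omega) (by omega) (by omega) (by omega) (by omega) (by omega) r4 r5
  have q6 := glu_meet (by omega) (by omega) (by omega) (by omega) (by omega) (by omega) r6 r5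
  have q7 := glu_meet (by omega) (by omega) (by omega) (by omega) (by omega) (by omega) r6 r7
  have q8 := glu_meet (by omega) (by omega) (by omega) (by omega) (by omega) (by omega) r4 r8
  have k5 : Reach D f (x5, -(n:ℤ) + 4 * ρ) := ((hP.mono hsubP).trans p2).trans q5
  have k4 := k5.trans q4.symm
  have k6 := k5.trans q6.symm
  have k7 := k6.trans q7
  have k8 := k4.trans q8
  -- the dual arm in the tube
  obtain ⟨w2, t2, w, hw, h1, h2⟩ := J14_dual hρ hc' hm hTf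
  refine ⟨w, hw, ?_⟩
  have h1' := reach_dl.2 h1
  have h2' := reach_dl.2 h2
  rw [← hD] at h2'
  rw [← reach_dl, ← hD]
  refine Reach.trans ?_ h2'
  have hsubT : dl '' (↑((sy s).toLSym.mp (tubeI n ρ c')) \ F : Set Edg) ⊆ D := by
    rw [hD]
    apply Set.image_mono
    rintro e ⟨h3, h4⟩
    refine ⟨?_, h4⟩
    rw [Finset.mem_coe, LSym.mem_mp, SYM_symm] at h3
    have h5 := J14_tube_sub_box hc' h3
    rw [sy_mem_box] at h5
    unfold boxE at h5 ⊢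
    obtain ⟨x, y, _ | _⟩ := e
    · rw [mem_RE_false] at h5
      rw [Finset.mem_coe, mem_RE_false]; omega
    · rw [mem_RE_true] at h5
      rw [Finset.mem_coe, mem_RE_true]; omega
  rcases SYM_cases s with rfl | rfl | rfl | rfl
  · -- right
    rw [SYM_0f] at h2' ⊢
    rw [SYM_0f, SYM_0f] at h1'
    obtain ⟨u1, u2, -, -, d1, d2⟩ := sub_LR (a := (n:ℤ) - 8 * ρ) (b := (n:ℤ) - 4 * ρ)
      (c := c' - ρ - 1) (d := c' + ρ) (by omega)
      (by
        intro x y h h1 h2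
        have h3 := (J14_dl_t h).1
        rw [J14_T0, Finset.mem_coe, mem_RE_false] at h3
        omega)
      (by
        intro x y h h1 h2
        have h3 := (J14_dl_f h).1
        rw [J14_T0, Finset.mem_coe, mem_RE_true] at h3
        omega) h1' (by show (n:ℤ) - 10 * ρ - 1 ≤ _; omega) (by show _ ≤ (n:ℤ) - 1; omega)
    replace d1 := d1.mono (Set.inter_subset_inter_left _ hsubT)
    replace d2 := d2.mono hsubT
    rcases le_abs.1 (hs rfl) with h | h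
    · have e1 := glu_meet (by omega) (by omega) (by omega) (by omega) (by omega) (by omega) d1 r8
      exact (k8.trans e1.symm).trans d2.symm
    · have e1 := glu_meet (by omega) (by omega) (by omega) (by omega) (by omega) (by omega) d1 r7
      exact (k7.trans e1.symm).trans d2.symm
  · -- top
    rw [SYM_1f] at h2' ⊢
    rw [SYM_1f, SYM_1f] at h1'
    obtain ⟨u1, u2, -, -, d1, d2⟩ := sub_TB (a := c' - ρ - 1) (b := c' + ρ)
      (c := (n:ℤ) - 8 * ρ) (d := (n:ℤ) - 4 * ρ) (by omega)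
      (by
        intro x y h h1 h2
        have h3 := (J14_dl_f h).1
        rw [J14_T1, Finset.mem_coe, mem_RE_true] at h3
        omega)
      (by
        intro x y h h1 h2
        have h3 := (J14_dl_t h).1
        rw [J14_T1, Finset.mem_coe, mem_RE_false] at h3
        omega) h1' (by show (n:ℤ) - 10 * ρ - 1 ≤ _; omega) (by show _ ≤ (n:ℤ) - 1; omega)
    replace d1 := d1.mono (Set.inter_subset_inter_left _ hsubT)
    replace d2 := d2.mono hsubT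
    have e1 := glu_meet (by omega) (by omega) (by omega) (by omega) (by omega) (by omega) r6 d1
    exact (k6.trans e1).trans d2.symm
  · -- left
    rw [SYM_2f] at h2' ⊢
    rw [SYM_2f, SYM_2f] at h1'
    obtain ⟨u1, u2, -, -, d1, d2⟩ := sub_LR (a := -(n:ℤ) + 4 * ρ) (b := -(n:ℤ) + 8 * ρ)
      (c := -c' - ρ - 1) (d := -c' + ρ) (by omega)
      (by
        intro x y h h1 h2
        have h3 := (J14_dl_t h).1
        rw [J14_T2, Finset.mem_coe, mem_RE_false] at h3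
        omega)
      (by
        intro x y h h1 h2
        have h3 := (J14_dl_f h).1
        rw [J14_T2, Finset.mem_coe, mem_RE_true] at h3
        omega) h1'.symm (by show -((n:ℤ) - 1) - 1 ≤ _; omega)
        (by show _ ≤ -((n:ℤ) - 10 * ρ - 1) - 1; omega)
    replace d1 := d1.mono (Set.inter_subset_inter_left _ hsubT)
    replace d2 := d2.mono hsubT
    have e1 := glu_meet (by omega) (by omega) (by omega) (by omega) (by omega) (by omega) d1 r5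
    exact ((k5.trans e1.symm).trans d2.symm).trans (h1'.mono hsubT).symm
  · -- bottom
    rw [SYM_3f] at h2' ⊢
    rw [SYM_3f, SYM_3f] at h1'
    obtain ⟨u1, u2, -, -, d1, d2⟩ := sub_TB (a := -c' - ρ - 1) (b := -c' + ρ)
      (c := -(n:ℤ) + 4 * ρ) (d := -(n:ℤ) + 8 * ρ) (by omega)
      (by
        intro x y h h1 h2
        have h3 := (J14_dl_f h).1
        rw [J14_T3, Finset.mem_coe, mem_RE_true] at h3
        omega)
      (by
        intro x y h h1 h2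
        have h3 := (J14_dl_t h).1
        rw [J14_T3, Finset.mem_coe, mem_RE_false] at h3
        omega) h1'.symm (by show -((n:ℤ) - 1) - 1 ≤ _; omega)
        (by show _ ≤ -((n:ℤ) - 10 * ρ - 1) - 1; omega)
    replace d1 := d1.mono (Set.inter_subset_inter_left _ hsubT)
    replace d2 := d2.mono hsubT
    have e1 := glu_meet (by omega) (by omega) (by omega) (by omega) (by omega) (by omega) r4 d1
    exact ((k4.trans e1).trans d2.symm).trans (h1'.mono hsubT).symm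

/-- the open arms are joined -/
theorem J14_openchain {n m ρ b : ℕ} {c x0 : ℤ} (hρ : 1 ≤ ρ) (h100 : 100 * ρ ≤ n)
    (hc : |c| + 20 * ρ ≤ n) (hm : 2 * n ≤ m) (hb : 3 * b ≤ n) (hb' : n ≤ 3 * b + 2) (hx0 : 2 * x0 ≤ n)
    (hx0' : (n : ℤ) ≤ 2 * x0 + 1) {F : Set Edg}
    (hopen : ∃ y : Vtx, y.1 = x0 + 2 * ρ ∧
      Reach (F ∩ ↑(RE (-(b : ℤ)) (x0 + 2 * ρ) (-(b : ℤ)) b)) (0, 0) y)
    (hTv : TvI n m ρ c F) {G : Set Edg} (hG : G = F ∩ ↑(boxE m)) {x1 x1' y2 y2' x3 x3' : ℤ}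
    (r1 : Reach (G ∩ ↑(TBE ((n:ℤ) - 10 * ρ) ((n:ℤ) - 8 * ρ - 1) (c - ρ) (c + ρ)))
      (x1, c - ρ) (x1', c + ρ))
    (r2 : Reach (G ∩ ↑(LRE x0 ((n:ℤ) - 8 * ρ - 1) (c - ρ) (c + ρ)))
      (x0, y2) ((n:ℤ) - 8 * ρ - 1, y2'))
    (r3 : Reach (G ∩ ↑(TBE x0 (x0 + 2 * ρ) (-(n:ℤ) + 11 * ρ) ((n:ℤ) - 11 * ρ)))
      (x3, -(n:ℤ) + 11 * ρ) (x3', (n:ℤ) - 11 * ρ)) :
    ∃ v, onB m v ∧ Reach (F ∩ ↑(boxE m)) (0, 0) v := by
  have hcb := abs_le.1 (show |c| ≤ (n : ℤ) - 20 * ρ by omega)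
  obtain ⟨v, hv, z1, z2, t1, t2⟩ := J14_open hρ hc hm hTv
  rw [← hG] at t1 t2 ⊢
  refine ⟨v, hv, ?_⟩
  obtain ⟨y, hy, P⟩ := hopen
  have hsub : F ∩ ↑(RE (-(b : ℤ)) (x0 + 2 * ρ) (-(b : ℤ)) b) ⊆ G := by
    rw [hG]
    rintro ⟨x, y, _ | _⟩ ⟨h1, h2⟩
    · refine ⟨h1, ?_⟩
      rw [Finset.mem_coe, mem_RE_false] at h2
      unfold boxE
      rw [Finset.mem_coe, mem_RE_false]
      omega
    · refine ⟨h1, ?_⟩
      rw [Finset.mem_coe, mem_RE_true] at h2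
      unfold boxE
      rw [Finset.mem_coe, mem_RE_true]
      omega
  obtain ⟨y1, y1', -, -, p1, p2⟩ := sub_LR (a := x0) (b := x0 + 2 * ρ)
    (c := -(b:ℤ)) (d := b) (by omega)
    (by
      rintro x y ⟨-, h⟩ h1 h2
      rw [Finset.mem_coe, mem_RE_true] at h
      omega)
    (by
      rintro x y ⟨-, h⟩ h1 h2
      rw [Finset.mem_coe, mem_RE_false] at h
      omega) P (by show (0:ℤ) ≤ _; omega) (by omega)
  replace p1 := p1.mono (Set.inter_subset_inter_left _ hsub)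
  replace p2 := p2.mono hsub
  have q1 := glu_meet (by omega) (by omega) (by omega) (by omega) (by omega) (by omega) p1 r3
  have q2 := glu_meet (by omega) (by omega) (by omega) (by omega) (by omega) (by omega) r2 r3
  have q3 := glu_meet (by omega) (by omega) (by omega) (by omega) (by omega) (by omega) r2 r1
  have q4 := glu_meet (by omega) (by omega) (by omega) (by omega) (by omega) (by omega) t1 r1
  exact (((((p2.trans q1).trans q2.symm).trans q3).trans q4.symm)).trans t2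

end H934I
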