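import Pool.Agent.H934R3.TI.J14c

/-!
# J14: gluing with the inner separated arms, part 4 (regions and monotonicity)
-/

set_option autoImplicit false

namespace H934I

open H974 H985T Finset

/-- increasing in the edges of `Xo`, decreasing in the edges of `Xd`, no other dependence -/
def MonoE (Xo Xd : Finset Edg) (A : Set Edg → Prop) : Prop :=
  ∀ G G' : Set Edg, (∀ e ∈ Xo, e ∈ G → e ∈ G') → (∀ e ∈ Xd, e ∉ G → e ∉ G') → A G → A G'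

theorem J14_mono_EI (n m ρ : ℕ) (c c' : ℤ) (s : Fin 4) :
    MonoE (annE n m ∪ tubeI n ρ c) (annE n m ∪ (sy s).toLSym.mp (tubeI n ρ c'))
      (fun G => TvI n m ρ c G ∧ TfSI n m ρ s c' G) := by
  rintro G G' h1 h2 ⟨⟨z2, hz, v, hv, P⟩, w2, hw2, w, hw, Q⟩
  refine ⟨⟨z2, hz, v, hv, P.mono ?_⟩, w2, hw2, w, hw, Q.mono ?_⟩
  · rintro e ⟨h3, h4⟩
    exact ⟨h1 e (Finset.mem_coe.1 h4) h3, h4⟩
  · rintro e ⟨h3, h4⟩
    refine ⟨h3, ?_⟩
    rintro ⟨e', h5, rfl⟩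
    have h6 : e' ∉ G := fun h7 => h4 ⟨e', h7, rfl⟩
    refine h2 e' ?_ h6 h5
    rw [Finset.mem_coe, Finset.mem_union] at h3
    rw [Finset.mem_union]
    rcases h3 with h3 | h3
    · left
      unfold annE at h3 ⊢
      rw [Finset.mem_sdiff, sy_mem_box, sy_mem_box] at h3
      rw [Finset.mem_sdiff]
      exact h3
    · right
      rw [LSym.mem_mp, SYM_symm]
      exact h3

theorem J14_mono_Sep (f : Vtx) (b : ℕ) (x1 : ℤ) :
    MonoE (RE (-(b : ℤ)) x1 (-(b : ℤ)) b) (RE (-(3 * b : ℕ)) (b : ℕ) (-(b : ℕ)) (b : ℕ))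
      (fun G => SepT f b x1 G) := by
  rintro G G' h1 h2 ⟨⟨y, hy, P⟩, g, hg, Q⟩
  refine ⟨⟨y, hy, P.mono ?_⟩, g, hg, Q.mono ?_⟩
  · rintro e ⟨h3, h4⟩
    exact ⟨h1 e (Finset.mem_coe.1 h4) h3, h4⟩
  · rintro e ⟨h3, h4⟩
    exact ⟨h3, h2 e (Finset.mem_coe.1 h3) h4⟩

/-- flipping the edges of `D` -/
noncomputable def unD (Ω D F : Finset Edg) : Finset Edg :=
  glu_un Ω D (Function.Embedding.refl Edg) F

theorem mem_unD {Ω D F : Finset Edg} {e : Edg} :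
    e ∈ unD Ω D F ↔ (e ∈ F ∧ e ∈ Ω ∧ e ∉ D) ∨ (e ∈ D ∧ e ∉ F) := by
  unfold unD
  rw [glu_mem_un]
  rfl

theorem J14_flip {Ω D : Finset Edg} (hD : D ⊆ Ω) (A : Finset Edg → Prop) :
    Pr (fun _ => (1 / 2 : ℝ)) Ω A = Pr (fun _ => (1 / 2 : ℝ)) Ω (fun w => A (unD Ω D w)) := by
  have h1 : D.map (Function.Embedding.refl Edg) = D := Finset.map_refl
  have h2 := glu_transfer hD (Function.Embedding.refl Edg)
    (by rw [h1]; exact Finset.sdiff_disjoint) A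
  rw [h1, Finset.sdiff_union_of_subset hD] at h2
  exact h2

theorem J14_un_mono {Xo Xd Ω D Z : Finset Edg} {A : Set Edg → Prop} (hA : MonoE Xo Xd A)
    (h1 : Xo ⊆ Ω) (h2 : Disjoint Xo D) (h3 : Xd ⊆ Z ∪ D) (h4 : Z ⊆ Ω) (h5 : Disjoint Z D)
    {F F' : Finset Edg} (hF : F ⊆ F') (hZ : F ∩ Z = F' ∩ Z) (h : A ↑(unD Ω D F)) :
    A ↑(unD Ω D F') := by
  refine hA _ _ ?_ ?_ h
  · intro e he h6
    rw [Finset.mem_coe, mem_unD] at h6 ⊢
    have h7 : e ∉ D := Finset.disjoint_left.1 h2 he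
    rcases h6 with h6 | h6
    · exact Or.inl ⟨hF h6.1, h6.2⟩
    · exact absurd h6.1 h7
  · intro e he h6
    rw [Finset.mem_coe, mem_unD] at h6 ⊢
    push Not at h6 ⊢
    rcases Finset.mem_union.1 (h3 he) with h7 | h7
    · have h8 : e ∉ D := Finset.disjoint_left.1 h5 h7
      refine ⟨fun h9 _ => ?_, fun h9 => absurd h9 h8⟩
      have h10 : e ∈ F ∩ Z := by rw [hZ]; exact Finset.mem_inter.2 ⟨h9, h7⟩
      exact h6.1 (Finset.mem_inter.1 h10).1 (h4 h7)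
    · exact ⟨fun _ _ => h7, fun _ => hF (h6.2 h7)⟩

theorem J14_un_local {Xo Xd Ω D Z : Finset Edg} {A : Set Edg → Prop} (hA : MonoE Xo Xd A)
    (h1 : Disjoint Xo Z) (h2 : Disjoint Xd Z) (F : Finset Edg) :
    A ↑(unD Ω D F) ↔ A ↑(unD Ω D (F \ Z)) := by
  have key : ∀ e, e ∉ Z → (e ∈ unD Ω D F ↔ e ∈ unD Ω D (F \ Z)) := by
    intro e he
    rw [mem_unD, mem_unD, Finset.mem_sdiff]
    constructor
    · rintro (h | h)
      · exact Or.inl ⟨⟨h.1, he⟩, h.2⟩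
      · exact Or.inr ⟨h.1, fun h3 => h.2 h3.1⟩
    · rintro (h | h)
      · exact Or.inl ⟨h.1.1, h.2⟩
      · exact Or.inr ⟨h.1, fun h3 => h.2 ⟨h3, he⟩⟩
  constructor
  · refine hA _ _ ?_ ?_
    · intro e he h3
      exact Finset.mem_coe.2 ((key e (Finset.disjoint_left.1 h1 he)).1 (Finset.mem_coe.1 h3))
    · intro e he h3 h4
      exact h3 (Finset.mem_coe.2 ((key e (Finset.disjoint_left.1 h2 he)).2 (Finset.mem_coe.1 h4)))
  · refine hA _ _ ?_ ?_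
    · intro e he h3
      exact Finset.mem_coe.2 ((key e (Finset.disjoint_left.1 h1 he)).2 (Finset.mem_coe.1 h3))
    · intro e he h3 h4
      exact h3 (Finset.mem_coe.2 ((key e (Finset.disjoint_left.1 h2 he)).1 (Finset.mem_coe.1 h4)))

theorem J14_local {Xo Xd S : Finset Edg} {A : Set Edg → Prop} (hA : MonoE Xo Xd A)
    (h1 : Xo ⊆ S) (h2 : Xd ⊆ S) (F : Finset Edg) : A ↑F ↔ A ↑(F ∩ S) := by
  constructor
  · refine hA _ _ ?_ ?_
    · intro e he h3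
      exact Finset.mem_coe.2 (Finset.mem_inter.2 ⟨Finset.mem_coe.1 h3, h1 he⟩)
    · intro e he h3 h4
      exact h3 (Finset.mem_coe.2 (Finset.mem_inter.1 (Finset.mem_coe.1 h4)).1)
  · refine hA _ _ ?_ ?_
    · intro e he h3
      exact Finset.mem_coe.2 (Finset.mem_inter.1 (Finset.mem_coe.1 h3)).1
    · intro e he h3 h4
      exact h3 (Finset.mem_coe.2 (Finset.mem_inter.2 ⟨Finset.mem_coe.1 h4, h2 he⟩))

/-! ### the flipped region -/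

/-- the frame near the boundary of the box `n`, without the corridor -/
def ringP (n ρ : ℕ) (c : ℤ) (e : Edg) : Prop :=
  e.1 ≤ -(n:ℤ) + 8 * ρ ∨ e.2.1 ≤ -(n:ℤ) + 8 * ρ ∨ (n:ℤ) - 8 * ρ ≤ e.2.1 ∨
    ((n:ℤ) - 8 * ρ ≤ e.1 ∧ (e.2.1 ≤ c - 3 * ρ ∨ c + 3 * ρ ≤ e.2.1))

open Classical in
/-- the region of the dual paths -/
noncomputable def DD (n ρ b : ℕ) (c : ℤ) (s : Fin 4) (c' : ℤ) : Finset Edg :=
  (boxE n).filter (fun e => e ∉ boxE b ∧ (e ∈ (sy s).toLSym.mp (tubeI n ρ c') ∨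
    e ∈ RE (-(3 * b : ℕ)) (b : ℕ) (-(b : ℕ)) (b : ℕ) ∨ ringP n ρ c e))

theorem mem_DD {n ρ b : ℕ} {c : ℤ} {s : Fin 4} {c' : ℤ} {e : Edg} :
    e ∈ DD n ρ b c s c' ↔ e ∈ boxE n ∧ e ∉ boxE b ∧ (e ∈ (sy s).toLSym.mp (tubeI n ρ c') ∨
    e ∈ RE (-(3 * b : ℕ)) (b : ℕ) (-(b : ℕ)) (b : ℕ) ∨ ringP n ρ c e) := by
  classical
  unfold DD
  rw [Finset.mem_filter]

theorem J14_box_true {m : ℕ} {x y : ℤ} : ((x, y, true) : Edg) ∈ boxE m ↔
    -(m:ℤ) ≤ x ∧ x < m ∧ -(m:ℤ) ≤ y ∧ y ≤ m := by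
  unfold boxE; exact mem_RE_true

theorem J14_box_false {m : ℕ} {x y : ℤ} : ((x, y, false) : Edg) ∈ boxE m ↔
    -(m:ℤ) ≤ x ∧ x ≤ m ∧ -(m:ℤ) ≤ y ∧ y < m := by
  unfold boxE; exact mem_RE_false

theorem J14_box_sub {n m : ℕ} (h : n ≤ m) : boxE n ⊆ boxE m := by
  rintro ⟨x, y, _ | _⟩ h1
  · rw [J14_box_false] at h1 ⊢; omega
  · rw [J14_box_true] at h1 ⊢; omega

/-- edges of the tube on side `s` -/
theorem J14_Ts {n ρ : ℕ} {c' : ℤ} {s : Fin 4} (hc' : |c'| + 20 * ρ ≤ n) {e : Edg}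
    (he : e ∈ (sy s).toLSym.mp (tubeI n ρ c')) : e ∈ boxE n ∧
    ((s = 0 ∧ (n:ℤ) - 10 * ρ ≤ e.1 ∧ c' - ρ ≤ e.2.1 ∧ e.2.1 ≤ c' + ρ) ∨
      (n:ℤ) - 10 * ρ ≤ e.2.1 ∨ e.1 ≤ -(n:ℤ) + 10 * ρ ∨ e.2.1 ≤ -(n:ℤ) + 10 * ρ) := by
  have hcb := abs_le.1 (show |c'| ≤ (n : ℤ) - 20 * ρ by omega)
  rcases SYM_cases s with rfl | rfl | rfl | rfl
  · rw [J14_T0] at he
    obtain ⟨x, y, _ | _⟩ := e
    · rw [mem_RE_false] at he
      rw [J14_box_false]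
      refine ⟨by omega, Or.inl ⟨rfl, ?_⟩⟩
      simp only
      omega
    · rw [mem_RE_true] at he
      rw [J14_box_true]
      refine ⟨by omega, Or.inl ⟨rfl, ?_⟩⟩
      simp only
      omega
  · rw [J14_T1] at he
    obtain ⟨x, y, _ | _⟩ := e
    · rw [mem_RE_false] at he
      rw [J14_box_false]
      refine ⟨by omega, ?_⟩
      simp only
      omega
    · rw [mem_RE_true] at he
      rw [J14_box_true]
      refine ⟨by omega, ?_⟩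
      simp only
      omega
  · rw [J14_T2] at he
    obtain ⟨x, y, _ | _⟩ := e
    · rw [mem_RE_false] at he
      rw [J14_box_false]
      refine ⟨by omega, ?_⟩
      simp only
      omega
    · rw [mem_RE_true] at he
      rw [J14_box_true]
      refine ⟨by omega, ?_⟩
      simp only
      omega
  · rw [J14_T3] at he
    obtain ⟨x, y, _ | _⟩ := e
    · rw [mem_RE_false] at he
      rw [J14_box_false]
      refine ⟨by omega, ?_⟩
      simp only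
      omega
    · rw [mem_RE_true] at he
      rw [J14_box_true]
      refine ⟨by omega, ?_⟩
      simp only
      omega

/-- geometry of the parameters -/
structure JG (n m ρ b : ℕ) (c : ℤ) (s : Fin 4) (c' x0 : ℤ) : Prop where
  hρ : 1 ≤ ρ
  h100 : 100 * ρ ≤ n
  hc : |c| + 20 * ρ ≤ n
  hc' : |c'| + 20 * ρ ≤ n
  hs : s = 0 → 6 * (ρ:ℤ) ≤ |c - c'|
  hm : 2 * n ≤ m
  hb : 3 * b ≤ n
  hb' : n ≤ 3 * b + 2
  hx0 : 2 * x0 ≤ n
  hx0' : (n : ℤ) ≤ 2 * x0 + 1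

/-- edges which are not flipped: sufficient criterion -/
theorem J14_not_DD {n m ρ b : ℕ} {c : ℤ} {s : Fin 4} {c' x0 : ℤ} (g : JG n m ρ b c s c' x0)
    {e : Edg} (h : e ∈ boxE b ∨ e ∉ boxE n ∨
      (b < e.1 ∨ (e.1 = b ∧ e.2.2 = true)) ∧
        ((c - ρ ≤ e.2.1 ∧ e.2.1 ≤ c + ρ) ∨
        (e.1 ≤ x0 + 2 * ρ ∧ -(n:ℤ) + 11 * ρ ≤ e.2.1 ∧ e.2.1 ≤ (n:ℤ) - 11 * ρ))) :
    e ∉ DD n ρ b c s c' := by
  obtain ⟨hρ, h100, hc, hc', hs, hm, hb, hb', hx0, hx0'⟩ := g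
  have hcb := abs_le.1 (show |c| ≤ (n : ℤ) - 20 * ρ by omega)
  have hcb' := abs_le.1 (show |c'| ≤ (n : ℤ) - 20 * ρ by omega)
  rw [mem_DD]
  rintro ⟨h1, h2, h3⟩
  rcases h with h | h | ⟨h, h'⟩
  · exact h2 h
  · exact h h1
  · rcases h3 with h3 | h3 | h3
    · have h4 := (J14_Ts hc' h3).2
      rcases h4 with ⟨h5, h6⟩ | h4
      · have h7 := le_abs.1 (hs h5)
        omega
      · omega
    · obtain ⟨x, y, _ | _⟩ := e
      · rw [mem_RE_false] at h3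
        simp only [Bool.false_eq_true, and_false, or_false] at h
        omega
      · rw [mem_RE_true] at h3
        simp only [and_true] at h
        omega
    · unfold ringP at h3
      omega

end H934I
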