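import Pool.Agent.H934R3.TI.Defs

/-!
Inward separation of the two arms: statements (as propositions, nothing is assumed).
-/

set_option autoImplicit false

namespace H934I

open H974 H985T Finset

/-! ### J1: the abstract step (variant of `H985T.step_prob`) -/

def St_J1 : Prop := ∀ (p : Edg → ℝ), Ok p → ∀ (S D X Oo : Finset Edg), Disjoint S D →
  Disjoint X (S ∪ D ∪ Oo) → Disjoint Oo (S ∪ D) → ∀ (Z : Edg → ZMod 2) (x y f : Vtx) (l : ℤ),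
  (∀ v, vb Z v = b2 (x = v) + b2 (y = v)) → corner x f → ∀ (Fs Ws : Set Vtx),
  (∀ f' ∈ Fs, (∃ e, e ∉ S ∪ D ∪ Oo ∧ (dsrc e = f' ∨ dtgt e = f')) ∧
    DReach {e : Edg | e ∉ S ∪ D ∪ Oo} f f') →
  (∀ w ∈ Ws, ∃ y', corner y' w ∧ Reach (↑Oo : Set Edg) y' y) →
  Pr p (S ∪ D ∪ X) (fun F =>
      PotHyp (↑(S ∪ D ∪ Oo) : Set Edg) ↑D (↑F ∪ ↑Oo) Z l ∧
        ∃ f' ∈ Fs, ∃ w ∈ Ws, DReach (↑(S ∪ X) \ ↑F : Set Edg) f' w) *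
    Pr p (S ∪ D ∪ X) (fun F => ∀ a ∈ VD (↑D : Set Edg), ∀ b,
      DReach (↑((S ∪ D ∪ X) \ F) : Set Edg) a b → b ∈ ball a l) ≤
  Pr p (S ∪ D ∪ X) (fun F => Reach (((↑(S ∪ D) : Set Edg) ∩ ↑F) ∪ ↑Oo) x y ∧
    ∃ f' ∈ Fs, ∃ w ∈ Ws, DReach (↑(S ∪ X) \ ↑F : Set Edg) f' w)

/-! ### J2: geometry of the inner box -/

/-- faces: everything in the inner box outside of the tube and the block is connected; the faces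
around the box (away from the mouth) as well -/
def St_J2f : Prop := ∀ (n m ρ : ℕ) (c : ℤ), 1 ≤ ρ → |c| + 20 * ρ ≤ n → 2 * n ≤ m →
  ∀ f : Vtx, (f ∈ ringF n ∧ ¬ (f.1 = n ∧ c - ρ ≤ f.2 ∧ f.2 < c + ρ)) ∨
    ((-(n:ℤ) ≤ f.1 ∧ f.1 < n ∧ -(n:ℤ) ≤ f.2 ∧ f.2 < n) ∧
      ¬ ((n:ℤ) - 14 * ρ ≤ f.1 ∧ c - ρ ≤ f.2 ∧ f.2 < c + ρ)) →
  (∃ e, e ∉ RI n m ρ c ∧ (dsrc e = f ∨ dtgt e = f)) ∧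
    DReach {e : Edg | e ∉ RI n m ρ c} ((n:ℤ) - 14 * ρ - 1, c) f

/-- vertices -/
def St_J2v : Prop := ∀ (n m ρ : ℕ) (c : ℤ), 1 ≤ ρ → |c| + 20 * ρ ≤ n → 2 * n ≤ m →
  ∀ z : Vtx, inR (-(n:ℤ)) n (-(n:ℤ)) n z →
    ¬ ((n:ℤ) - 14 * ρ ≤ z.1 ∧ c - ρ ≤ z.2 ∧ z.2 ≤ c + ρ) →
  (∃ e, e ∉ RI n m ρ c ∧ (src e = z ∨ tgt e = z)) ∧
    Reach {e : Edg | e ∉ RI n m ρ c} ((n:ℤ) - 14 * ρ - 1, c) z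

/-- frame around the box `m` -/
def St_J2o : Prop := ∀ m : ℕ, 1 ≤ m →
  (∀ w ∈ ringF m, ∃ y', corner y' w ∧ Reach (↑(outE m) : Set Edg) y' ((m:ℤ) + 1, 0)) ∧
  (∀ v, onB m v → ∃ f', corner v f' ∧ DReach (↑(outE m) : Set Edg) f' ((m:ℤ), 0))

/-! ### J3, J4: potentials at the mouth -/

def St_J3 : Prop := ∀ (n m ρ r l : ℕ) (c : ℤ), 1 ≤ l → 8 * l ≤ r → 16 * r ≤ ρ →
  |c| + 20 * ρ ≤ n → 2 * n ≤ m → ∀ F : Set Edg, LvI n m ρ c F → GdI n ρ r l c F →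
  ∀ Z : Edg → ZMod 2,
  (∀ v, vb Z v = b2 ((((n:ℤ) - 14 * ρ, c) : Vtx) = v) + b2 ((((m:ℤ) + 1, 0) : Vtx) = v)) →
  PotHyp (↑(RI n m ρ c) : Set Edg) ↑(tubeI n ρ c) (F ∪ ↑(endI n ρ c ∪ outE m)) Z l

def St_J4 : Prop := ∀ (n m ρ r l : ℕ) (c : ℤ), 1 ≤ l → 8 * l ≤ r → 16 * r ≤ ρ →
  |c| + 20 * ρ ≤ n → 2 * n ≤ m → ∀ F : Set Edg, LfI n m ρ c F → GpI n ρ r l c F →
  ∀ Fs : Set Edg, (∀ e ∈ annE n m, (dl e ∈ Fs ↔ e ∉ F)) → ∀ Z : Edg → ZMod 2,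
  (∀ v, vb Z v = b2 ((((n:ℤ) - 14 * ρ - 1, c) : Vtx) = v) + b2 ((((m:ℤ), 0) : Vtx) = v)) →
  PotHyp (↑(dmp (RI n m ρ c)) : Set Edg) ↑(dmp (tubeI n ρ c))
    (Fs ∪ ↑(dmp (endI n ρ c ∪ outE m))) Z l

/-! ### J5: first passages -/

def St_J5v : Prop := ∀ (n m ρ : ℕ) (c : ℤ), 1 ≤ ρ → |c| + 20 * ρ ≤ n → 2 * n ≤ m →
  ∀ F : Set Edg,
  Reach (((↑(annE n m ∪ tubeI n ρ c) : Set Edg) ∩ F) ∪ ↑(endI n ρ c ∪ outE m))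
    ((n:ℤ) - 14 * ρ, c) ((m:ℤ) + 1, 0) → TvI n m ρ c F

def St_J5f : Prop := ∀ (n m ρ : ℕ) (c : ℤ), 1 ≤ ρ → |c| + 20 * ρ ≤ n → 2 * n ≤ m →
  ∀ F : Set Edg,
  DReach (((↑(annE n m ∪ tubeI n ρ c) : Set Edg) \ F) ∪ ↑(endI n ρ c ∪ outE m))
    ((n:ℤ) - 14 * ρ - 1, c) ((m:ℤ), 0) → TfI n m ρ c F

/-! ### J6, J7: the two separation steps -/

def St_J6 : Prop := ∀ (κ : ℝ) (N : ℕ), H12S.Win (1 / 2) κ N → ∀ (n m ρ r l k : ℕ) (c : ℤ),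
  1 ≤ l → 32 * l ≤ r → 16 * r ≤ ρ → ρ ≤ k * l → |c| + 20 * ρ ≤ n → 2 * n ≤ m → 2 * l ≤ N →
  ∀ X : Finset Edg, Disjoint X (RI n m ρ c) → ∀ Fs : Set Vtx,
  (∀ f' ∈ Fs, (∃ e, e ∉ RI n m ρ c ∧ (dsrc e = f' ∨ dtgt e = f')) ∧
    DReach {e : Edg | e ∉ RI n m ρ c} ((n:ℤ) - 14 * ρ - 1, c) f') →
  H12S.PQ (1 / 2) (annE n m ∪ tubeI n ρ c ∪ X) (fun F =>
      (LvI n m ρ c ↑F ∧ GdI n ρ r (4 * l) c ↑F) ∧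
        ∃ f' ∈ Fs, ∃ w ∈ ringF m, DReach (↑(annE n m ∪ X) \ ↑F : Set Edg) f' w) *
      κ ^ (4 * (2 * (6 * k) + 1) ^ 2) ≤
    H12S.PQ (1 / 2) (annE n m ∪ tubeI n ρ c ∪ X) (fun F => TvI n m ρ c ↑F ∧
        ∃ f' ∈ Fs, ∃ w ∈ ringF m, DReach (↑(annE n m ∪ X) \ ↑F : Set Edg) f' w)

def St_J7 : Prop := ∀ (κ : ℝ) (N : ℕ), H12S.Win (1 / 2) κ N → ∀ (n m ρ r l k : ℕ) (c : ℤ),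
  1 ≤ l → 32 * l ≤ r → 16 * r ≤ ρ → ρ ≤ k * l → |c| + 20 * ρ ≤ n → 2 * n ≤ m → 2 * l ≤ N →
  ∀ X : Finset Edg, Disjoint X (RI n m ρ c) → ∀ Zs : Set Vtx,
  (∀ z ∈ Zs, (∃ e, e ∉ RI n m ρ c ∧ (src e = z ∨ tgt e = z)) ∧
    Reach {e : Edg | e ∉ RI n m ρ c} ((n:ℤ) - 14 * ρ - 1, c) z) →
  H12S.PQ (1 / 2) (annE n m ∪ tubeI n ρ c ∪ X) (fun F =>
      (LfI n m ρ c ↑F ∧ GpI n ρ r (4 * l) c ↑F) ∧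
        ∃ z ∈ Zs, ∃ v, onB m v ∧ Reach (↑F ∩ ↑(annE n m ∪ X) : Set Edg) z v) *
      κ ^ (4 * (2 * (6 * k) + 1) ^ 2) ≤
    H12S.PQ (1 / 2) (annE n m ∪ tubeI n ρ c ∪ X) (fun F => TfI n m ρ c ↑F ∧
        ∃ z ∈ Zs, ∃ v, onB m v ∧ Reach (↑F ∩ ↑(annE n m ∪ X) : Set Edg) z v)

/-! ### J8: another landing of the open arm -/

def St_J8 : Prop := ∀ (n m r R : ℕ) (y0 : ℤ), 1 ≤ r → r + 1 ≤ R → |y0| + R + 4 ≤ n → 2 * n ≤ m →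
  ∀ F : Set Edg, ¬ H3dI n y0 (r + 1) R F → AV n m F →
    ∃ u v, onB n u ∧ onB m v ∧ Reach (F ∩ ↑(annE n m)) u v ∧ ¬ (u.1 = n ∧ |u.2 - y0| ≤ r)

/-! ### J9: three arms in the half plane -/

def St_J9p : Prop := ∃ C c : ℝ, 0 < C ∧ 0 < c ∧ ∀ (n r R : ℕ) (y0 : ℤ) (U : Finset Edg),
  1 ≤ r → r ≤ R → |y0| + R ≤ n → hbI n y0 R ⊆ U →
  H12S.PQ (1 / 2) U (fun F => H3pI n y0 r R ↑F) ≤ C * ((r:ℝ) / R) ^ (1 + c)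

def St_J9d : Prop := ∃ C c : ℝ, 0 < C ∧ 0 < c ∧ ∀ (n r R : ℕ) (y0 : ℤ) (U : Finset Edg),
  1 ≤ r → r ≤ R → |y0| + R ≤ n → hbI n y0 R ⊆ U →
  H12S.PQ (1 / 2) U (fun F => H3dI n y0 r R ↑F) ≤ C * ((r:ℝ) / R) ^ (1 + c)

/-! ### J10: monotonicity and independence -/

def St_J10 : Prop := ∀ (n m : ℕ), 1 ≤ n → 2 * n ≤ m → ∀ F : Set Edg,
  (AA n m F → AA (2 * n) m F) ∧
  (∀ (ρ : ℕ) (s : Fin 4) (c c' : ℤ), |c| + 20 * ρ ≤ n → |c'| + 20 * ρ ≤ n →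
    LvI n m ρ c F ∨ TvI n m ρ c F → LfSI n m ρ s c' F ∨ TfSI n m ρ s c' F → AA (2 * n) m F)

def St_J10i : Prop := ∀ (n m : ℕ), 2 * n ≤ m → ∀ (U : Finset Edg), annE n m ⊆ U →
  ∀ Bd : Finset Edg → Prop, (∀ F, F ⊆ U → (Bd F ↔ Bd (F ∩ boxE (2 * n)))) →
  H12S.PQ (1 / 2) U (fun F => AA (2 * n) m ↑F ∧ Bd F) = aa (2 * n) m * H12S.PQ (1 / 2) U Bd

/-! ### J11: bad events are unlikely -/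

def St_J11d : Prop := ∀ η : ℝ, 0 < η → ∃ B₀ : ℕ, ∀ B, B₀ ≤ B → ∃ A₀ : ℕ, ∀ A, A₀ ≤ A →
  ∀ (l n m ρ r : ℕ) (c : ℤ) (U : Finset Edg), 1 ≤ l → r = A * l → ρ = B * r →
    |c| + 20 * ρ ≤ n → 2 * n ≤ m → annE n m ⊆ U →
    H12S.PQ (1 / 2) U (fun F => AA (2 * n) m ↑F ∧ ¬ GdI n ρ r (4 * l) c ↑F) ≤ η * aa (2 * n) m

def St_J11p : Prop := ∀ η : ℝ, 0 < η → ∃ B₀ : ℕ, ∀ B, B₀ ≤ B → ∃ A₀ : ℕ, ∀ A, A₀ ≤ A →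
  ∀ (l n m ρ r : ℕ) (s : Fin 4) (c : ℤ) (U : Finset Edg), 1 ≤ l → r = A * l → ρ = B * r →
    |c| + 20 * ρ ≤ n → 2 * n ≤ m → annE n m ⊆ U →
    H12S.PQ (1 / 2) U (fun F => AA (2 * n) m ↑F ∧ ¬ GpSI n ρ r (4 * l) s c ↑F) ≤
      η * aa (2 * n) m

def St_J11s : Prop := ∀ η : ℝ, 0 < η → ∃ D₀ : ℕ, 1 ≤ D₀ ∧ ∀ D, D₀ ≤ D → ∀ n m ρ : ℕ, 1 ≤ ρ →
  D * ρ ≤ n → n ≤ 2 * D * ρ → 2 * n ≤ m → ∃ r0 R : ℕ, 10 * ρ ≤ R ∧ 2 * R + 40 * ρ ≤ r0 ∧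
    8 * r0 ≤ n ∧
    H12S.PQ (1 / 2) (annE n m) (fun F => AA n m ↑F ∧ ¬ SelGoodI n ρ r0 R ↑F) ≤ η * aa (2 * n) m

/-! ### J12: selection of the landing places -/

def St_J12 : Prop := ∀ (n m ρ r0 R : ℕ), 1 ≤ ρ → 10 * ρ ≤ R → 2 * R + 40 * ρ ≤ r0 → 8 * r0 ≤ n →
  2 * n ≤ m → ∀ F : Set Edg, AA n m F → SelGoodI n ρ r0 R F →
  ∃ s s' : Fin 4, ∃ k k' : ℤ, |(ρ:ℤ) * k| + 20 * ρ ≤ n ∧ |(ρ:ℤ) * k'| + 20 * ρ ≤ n ∧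
    (s = s' → 6 * (ρ:ℤ) ≤ |(ρ:ℤ) * k - ρ * k'|) ∧ LvI n m ρ (ρ * k) ((sy s).φ '' F) ∧
      LfSI n m ρ s' (ρ * k') F

def St_J12s : Prop := ∀ η : ℝ, 0 < η → ∃ D₀ : ℕ, 50 ≤ D₀ ∧ ∀ D, D₀ ≤ D → ∀ n m ρ : ℕ, 1 ≤ ρ →
  D * ρ ≤ n → n ≤ 2 * D * ρ → 2 * n ≤ m → ∀ M : ℝ, 0 ≤ M →
  (∀ (s : Fin 4) (c c' : ℤ), |c| + 20 * ρ ≤ n → |c'| + 20 * ρ ≤ n →
    (s = 0 → 6 * (ρ:ℤ) ≤ |c - c'|) →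
    H12S.PQ (1 / 2) (annE n m) (fun F => LvI n m ρ c ↑F ∧ LfSI n m ρ s c' ↑F) ≤ M) →
  aa n m ≤ 16 * (4 * (D:ℝ) + 1) ^ 2 * M + η * aa (2 * n) m

/-! ### J13: the two steps with symmetries -/

def St_J13a : Prop := ∀ (κ : ℝ) (N : ℕ), H12S.Win (1 / 2) κ N → ∀ (n m ρ r l k : ℕ) (c c' : ℤ)
  (s : Fin 4), 1 ≤ l → 32 * l ≤ r → 16 * r ≤ ρ → ρ ≤ k * l → |c| + 20 * ρ ≤ n →
  |c'| + 20 * ρ ≤ n → (s = 0 → 6 * (ρ:ℤ) ≤ |c - c'|) → 2 * n ≤ m → 2 * l ≤ N →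
  H12S.PQ (1 / 2) (annE n m) (fun F => (LvI n m ρ c ↑F ∧ GdI n ρ r (4 * l) c ↑F) ∧
      LfSI n m ρ s c' ↑F) * κ ^ (4 * (2 * (6 * k) + 1) ^ 2) ≤
    H12S.PQ (1 / 2) (annE n m ∪ tubeI n ρ c) (fun F => TvI n m ρ c ↑F ∧ LfSI n m ρ s c' ↑F)

def St_J13b : Prop := ∀ (κ : ℝ) (N : ℕ), H12S.Win (1 / 2) κ N → ∀ (n m ρ r l k : ℕ) (c c' : ℤ)
  (s : Fin 4), 1 ≤ l → 32 * l ≤ r → 16 * r ≤ ρ → ρ ≤ k * l → |c| + 20 * ρ ≤ n →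
  |c'| + 20 * ρ ≤ n → (s = 0 → 6 * (ρ:ℤ) ≤ |c - c'|) → 2 * n ≤ m → 2 * l ≤ N →
  H12S.PQ (1 / 2) (annE n m ∪ tubeI n ρ c) (fun F => TvI n m ρ c ↑F ∧
      LfSI n m ρ s c' ↑F ∧ GpSI n ρ r (4 * l) s c' ↑F) * κ ^ (4 * (2 * (6 * k) + 1) ^ 2) ≤
    H12S.PQ (1 / 2) (annE n m ∪ tubeI n ρ c ∪ (sy s).toLSym.mp (tubeI n ρ c'))
      (fun F => TvI n m ρ c ↑F ∧ TfSI n m ρ s c' ↑F)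

/-! ### J14: gluing with the separated arms of the origin -/

/-- separated arms of the vertex `(0,0)` (to the right) and of a face next to it (to the left) -/
def SepR (f : Vtx) (b : ℕ) (F : Set Edg) : Prop :=
  (∃ y : Vtx, y.1 = (3 * b : ℕ) ∧
      Reach (F ∩ ↑(RE (-(b : ℕ)) (3 * b : ℕ) (-(b : ℕ)) (b : ℕ))) (0, 0) y) ∧
    ∃ g : Vtx, g.1 < -(3 * b : ℕ) ∧
      DReach (↑(RE (-(3 * b : ℕ)) (b : ℕ) (-(b : ℕ)) (b : ℕ)) \ F : Set Edg) f g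

/-- lower bound for the probability of separated arms -/
def St_LR : Prop := ∃ (c : ℝ) (f : Vtx), 0 < c ∧ corner (0, 0) f ∧ ∀ b : ℕ, 1 ≤ b →
  c * (b : ℝ) ^ (-(1/4 : ℝ)) ≤
    H12S.PQ (1 / 2) (RE (-(3 * b : ℕ)) (3 * b : ℕ) (-(b : ℕ)) (b : ℕ)) (fun F => SepR f b ↑F)

/-- upper bound for the two-arm probability of the origin, all corners -/
def St_U : Prop := ∃ C : ℝ, 0 < C ∧ ∀ f : Vtx, corner (0, 0) f → ∀ m : ℕ, 1 ≤ m →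
  H12S.PQ (1 / 2) (boxE m) (fun F => A2g m f ↑F) ≤ C * (m:ℝ) ^ (-(1/4 : ℝ))

def St_J14 : Prop := St_LR → St_U → ∀ B : ℕ, ∃ K : ℝ, 0 < K ∧ ∀ (n m ρ : ℕ) (c : ℤ) (s : Fin 4)
  (c' : ℤ), 1 ≤ ρ → n ≤ B * ρ → 100 * ρ ≤ n → |c| + 20 * ρ ≤ n → |c'| + 20 * ρ ≤ n →
  (s = 0 → 6 * (ρ:ℤ) ≤ |c - c'|) → 2 * n ≤ m →
  H12S.PQ (1 / 2) (annE n m ∪ tubeI n ρ c ∪ (sy s).toLSym.mp (tubeI n ρ c'))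
    (fun F => TvI n m ρ c ↑F ∧ TfSI n m ρ s c' ↑F) ≤ K * ((n:ℝ) / m) ^ (1/4 : ℝ)

/-! ### J15: recursion -/

def St_J15 : Prop := St_LR → St_U → ∃ (K : ℝ) (n₀ : ℕ), 0 < K ∧ ∀ n m : ℕ, n₀ ≤ n → 2 * n ≤ m →
  aa n m ≤ K * ((n:ℝ) / m) ^ (1/4 : ℝ) + 1 / 4 * aa (2 * n) m

def St_aa : Prop := ∃ C : ℝ, 0 < C ∧ ∀ n m : ℕ, 1 ≤ n → n ≤ m →
  aa n m ≤ C * ((n:ℝ) / m) ^ (1/4 : ℝ)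

end H934I
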