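import Pool.Agent.H934R3.TI.Props
import Pool.Agent.H934R3.D74.Defs

/-!
Inward separation: interface with the project D74 (statements as propositions).
-/

set_option autoImplicit false

namespace H934I

open H974 H985T Finset

/-- the annulus bound of the project D74 -/
def St_J16 : Prop := St_aa → H934F.St_A

/-- lower bound in the form `St_LR` -/
def St_J17 : Prop := H934F.St_L → St_LR

end H934I
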